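import Pool.Agent.H12.EK.Up

/-!
The upper bound for the number of the `n ≤ N` which exceed `n ^ ρ` before they fall below `n ^ β`,
for every `β` for which there are weights. (The proofs follow H12/EW/Deep and H12/EW/DeepS.)
-/

set_option autoImplicit false

namespace Pool.Agent.H12.EK

open Filter Finset Pool.Agent.H12.EU Pool.Agent.H83.EX Pool.Agent.H12.EV Pool.Agent.H12.EW

lemma intUp0K {σ b δ₀ U : ℝ} {u₀ : ℕ → ℝ} (hW : WP σ b δ₀ U u₀) {θ : ℝ} {κ : ℕ → ℝ} (hθ : 0 < θ) (hκ : 0 ≤ mean κ)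
    (hc : ∀ r : ℕ, r < 6 → Tendsto (fun L : ℝ => F r L 0 * L ^ θ) atTop (nhds (κ r)))
    {η : ℝ} (hη : 0 < η) :
    ∃ ε₁ : ℝ, 0 < ε₁ ∧ ε₁ ≤ 1 / 4 ∧ ∀ ε : ℝ, 0 < ε → ε ≤ ε₁ →
    ∃ M0 L0 D : ℝ, 1 ≤ M0 ∧ 1 ≤ L0 ∧ 0 ≤ D ∧ ∀ M X R : ℝ, M0 ≤ M →
      ((1 - ε) * M) ^ (1 / 2 : ℝ) ≤ R → R ≤ M → L0 * M ≤ X → ∀ P : ℕ → Prop,
      (∀ n : ℕ, (1 - ε) * M < n → (n : ℝ) ≤ M → P n → Reach X R n) →
      (cnt P M : ℝ) ≤ cnt P ((1 - ε) * M) + (mean κ + η) * ε * M * (X / M) ^ (-θ) +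
        D * (M / R) ^ σ * M ^ b := by
  classical
  obtain ⟨B, hB0, hB⟩ := upG hW
  have hσ0 := hW.s0
  have hσ1 := hW.s1
  have hb0 := hW.b0
  obtain ⟨L1, hL11, hL1⟩ := sum_up0 hc (show 0 < η / 2 by linarith)
  -- the factor `(1 + ε)^θ`
  set s : ℝ := η / (2 * mean κ + η) with hs
  have hs0 : 0 < s := by positivity
  have tc : Tendsto (fun ε : ℝ => (1 + ε) ^ θ) (nhds 0) (nhds ((1 + 0) ^ θ)) := by
    have : ContinuousAt (fun ε : ℝ => (1 + ε) ^ θ) 0 := by
      refine ContinuousAt.rpow_const ?_ (Or.inl (by norm_num))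
      fun_prop
    exact this
  have e0 : ((1 : ℝ) + 0) ^ θ = 1 := by norm_num
  rw [e0] at tc
  have tc2 := tc.eventually (gt_mem_nhds (show (1 : ℝ) < 1 + s by linarith))
  obtain ⟨δ, hδ, hδ'⟩ := Metric.eventually_nhds_iff.mp tc2
  refine ⟨min (1 / 4) (δ / 2), by positivity, min_le_left _ _, ?_⟩
  intro ε hε hεle
  have hε2 : ε ≤ 1 / 4 := hεle.trans (min_le_left _ _)
  have hε3 : ε ≤ δ / 2 := hεle.trans (min_le_right _ _)
  have hfac : (1 + ε) ^ θ ≤ 1 + s := by
    refine (hδ' ?_).le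
    rw [Real.dist_eq, sub_zero, abs_of_pos hε]
    linarith
  obtain ⟨M1, hM11, hM1⟩ := factor_bound0 hε hε2
  refine ⟨max M1 4, 2 * L1, 48 * B + 6 * (mean κ + η), hM11.trans (le_max_left _ _), by linarith,
    by positivity, ?_⟩
  intro M X R hM hRlow hRM hXM P hP
  have hMM1 : M1 ≤ M := (le_max_left _ _).trans hM
  have hM4 : 4 ≤ M := (le_max_right _ _).trans hM
  have hM1' : 1 ≤ M := by linarith
  have hM0 : 0 < M := by linarith
  have hX0 : 0 < X := by nlinarith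
  obtain ⟨hz1, hz2⟩ := hM1 M R hMM1 hRlow
  have hRhalf : 1 / 2 ≤ R := by
    refine le_trans ?_ hRlow
    have h1 : (1 : ℝ) ≤ ((1 - ε) * M) ^ (1 / 2 : ℝ) := Real.one_le_rpow (by nlinarith) (by norm_num)
    linarith
  have hR0 : 0 < R := by linarith
  have hx : 1 / 2 ≤ X := by nlinarith
  set q : ℝ := (1 - ε) * M with hq
  have hq0 : 0 < q := mul_pos (by linarith) hM0
  set m := Nat.log 2 ⌊M⌋₊ + 1 with hm
  set z : ℝ := (1 + 1 / (2 * R)) ^ m with hz
  have hz0 : 0 < z := by positivity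
  have hab : q ≤ M := by rw [hq]; nlinarith
  have hsplit := cnt_split P hab
  set u := ⌊q⌋₊ with hu
  set w := ⌊M⌋₊ with hw
  have huw : u ≤ w := Nat.floor_le_floor hab
  have hl := card_Ioc_le P X R u w (by
    intro n h1 h2 h3
    exact hP n ((Nat.floor_lt hq0.le).mp h1) ((Nat.le_floor_iff hM0.le).mp h2) h3)
  have hwlt : w < 2 ^ m := Nat.lt_pow_succ_log_self (by norm_num) w
  have hwM : (w : ℝ) ≤ M := Nat.floor_le hM0.le
  have hzy0 : 0 < z * (M + 1 / 4) := by positivity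
  have hL'' : X / ((1 + ε) * M) ≤ X / (z * (M + 1 / 4)) :=
    div_le_div_of_nonneg_left hX0.le hzy0 hz1
  have hL1le : L1 ≤ X / ((1 + ε) * M) := by
    rw [le_div_iff₀ (by positivity)]
    nlinarith
  have hsumF : ∑ r ∈ range 6, F r (X / (z * (M + 1 / 4))) (R / (z * (M + 1 / 4))) ≤
      6 * ((mean κ + η) * (X / M) ^ (-θ)) := by
    have h1 : ∑ r ∈ range 6, F r (X / (z * (M + 1 / 4))) (R / (z * (M + 1 / 4))) ≤
        ∑ r ∈ range 6, F r (X / ((1 + ε) * M)) (R / (z * (M + 1 / 4))) :=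
      Finset.sum_le_sum (fun r _ => F_anti r hL'' le_rfl)
    have h2 := hL1 (X / ((1 + ε) * M)) (R / (z * (M + 1 / 4))) hL1le (by positivity)
    have e2 : (X / ((1 + ε) * M)) ^ (-θ) = (1 + ε) ^ θ * (X / M) ^ (-θ) := by
      have : X / ((1 + ε) * M) = (1 + ε)⁻¹ * (X / M) := by
        field_simp
      rw [this, Real.mul_rpow (by positivity) (by positivity)]
      congr 1
      rw [Real.inv_rpow (by linarith), Real.rpow_neg (by linarith), inv_inv]
    rw [e2] at h2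
    have hXp : 0 < (X / M) ^ (-θ) := Real.rpow_pos_of_pos (by positivity) _
    have h3 : (mean κ + η / 2) * ((1 + ε) ^ θ * (X / M) ^ (-θ)) ≤
        (mean κ + η / 2) * ((1 + s) * (X / M) ^ (-θ)) :=
      mul_le_mul_of_nonneg_left (mul_le_mul_of_nonneg_right hfac hXp.le) (by positivity)
    have h4 : (mean κ + η / 2) * (1 + s) = mean κ + η := by
      rw [hs]
      have : 2 * mean κ + η ≠ 0 := by positivity
      field_simp
      ring
    have h5 : (mean κ + η / 2) * ((1 + s) * (X / M) ^ (-θ)) = (mean κ + η) * (X / M) ^ (-θ) := by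
      rw [← h4]
      ring
    linarith
  have hcls : ∀ j ∈ range 6, (NU (u + 1 + j) 1 X R ((w - u + 6 - 1 - j) / 6) : ℝ) ≤
      (ε * M / 6 + 1) * F ((u + 1 + j) % 6) (X / (z * (M + 1 / 4))) (R / (z * (M + 1 / 4))) +
        8 * B * (M / R) ^ σ * M ^ b := by
    intro j hj
    rw [mem_range] at hj
    set T : ℕ := (w - u + 6 - 1 - j) / 6 with hT
    have hTw : T ≤ w := by omega
    have hup := hB X R hx hRhalf m T (by omega) (u + 1 + j) 1 M (by norm_num) (by norm_num)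
      hM0.le (by
        intro s hs
        have h1 : u + 1 + j + 6 * 1 * s ≤ w := by omega
        have h2 : ((u + 1 + j + 6 * 1 * s : ℕ) : ℝ) ≤ (w : ℝ) := by exact_mod_cast h1
        exact h2.trans hwM)
    rw [← hz] at hup
    refine hup.trans ?_
    have hT0 : (0 : ℝ) ≤ T := Nat.cast_nonneg T
    have hT1 : (T : ℝ) ≤ ε * M / 6 + 1 := by
      have h1 : T * 6 ≤ w - u + 5 := by omega
      have h2 : ((T * 6 : ℕ) : ℝ) ≤ ((w - u + 5 : ℕ) : ℝ) := by exact_mod_cast h1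
      rw [Nat.cast_add, Nat.cast_sub huw] at h2
      push_cast at h2
      have h4 : q < u + 1 := Nat.lt_floor_add_one _
      rw [hq] at h4
      linarith
    have hTM : (T : ℝ) ≤ M := by
      have h2 : (T : ℝ) ≤ (w : ℝ) := by exact_mod_cast hTw
      exact h2.trans hwM
    have hTp : (T : ℝ) ^ b ≤ M ^ b :=
      Real.rpow_le_rpow hT0 hTM hb0.le
    have hMR0' : 0 ≤ M / R := by positivity
    have hyR : ((M + 1 / 4) / R) ^ σ ≤ 4 * (M / R) ^ σ := by
      have g1 : (M + 1 / 4) / R ≤ 4 * (M / R) := by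
        rw [← mul_div_assoc]
        exact div_le_div_of_nonneg_right (by linarith) hR0.le
      have g2 : ((M + 1 / 4) / R) ^ σ ≤ (4 * (M / R)) ^ σ :=
        Real.rpow_le_rpow (by positivity) g1 hσ0.le
      rw [Real.mul_rpow (by norm_num) hMR0'] at g2
      have g3 : (4 : ℝ) ^ σ ≤ 4 := by
        calc (4 : ℝ) ^ σ ≤ (4 : ℝ) ^ (1 : ℝ) := Real.rpow_le_rpow_of_exponent_le (by norm_num) hσ1
          _ = 4 := Real.rpow_one _
      exact g2.trans (mul_le_mul_of_nonneg_right g3 (Real.rpow_nonneg hMR0' _))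
    have hFnn : 0 ≤ F ((u + 1 + j) % 6) (X / (z * (M + 1 / 4))) (R / (z * (M + 1 / 4))) :=
      F_nonneg _ _ _
    have hMR0 : 0 ≤ M / R := by positivity
    refine add_le_add (mul_le_mul_of_nonneg_right hT1 hFnn) ?_
    calc B * z * (T : ℝ) ^ b * ((M + 1 / 4) / R) ^ σ
        ≤ B * 2 * M ^ b * (4 * (M / R) ^ σ) := by
          refine mul_le_mul ?_ hyR (by positivity) (by positivity)
          refine mul_le_mul ?_ hTp (by positivity) (by positivity)
          exact mul_le_mul_of_nonneg_left hz2 hB0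
      _ = 8 * B * (M / R) ^ σ * M ^ b := by ring
  have hsum := Finset.sum_le_sum hcls
  have hsum2 : ∑ j ∈ range 6, ((ε * M / 6 + 1) * F ((u + 1 + j) % 6)
      (X / (z * (M + 1 / 4))) (R / (z * (M + 1 / 4))) + 8 * B * (M / R) ^ σ * M ^ b) =
      (ε * M / 6 + 1) * (∑ r ∈ range 6, F r (X / (z * (M + 1 / 4)))
        (R / (z * (M + 1 / 4)))) + 48 * B * (M / R) ^ σ * M ^ b := by
    rw [Finset.sum_add_distrib, ← Finset.mul_sum,
      sum_mod (fun r => F r (X / (z * (M + 1 / 4))) (R / (z * (M + 1 / 4)))) (u + 1)]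
    simp
    ring
  rw [hsum2] at hsum
  have hcast : (((Ioc u w).filter P).card : ℝ) ≤
      ∑ j ∈ range 6, (NU (u + 1 + j) 1 X R ((w - u + 6 - 1 - j) / 6) : ℝ) := by
    exact_mod_cast hl
  have hsr : (cnt P M : ℝ) = (cnt P q : ℝ) + (((Ioc u w).filter P).card : ℝ) := by
    exact_mod_cast hsplit
  rw [hsr]
  have hM1p : 1 ≤ M ^ b := Real.one_le_rpow hM1' hb0.le
  have hMR1 : 1 ≤ (M / R) ^ σ := by
    refine Real.one_le_rpow ?_ hσ0.le
    rw [le_div_iff₀ hR0]
    linarith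
  have hXM1 : 1 ≤ X / M := by
    rw [le_div_iff₀ hM0]
    nlinarith
  have hXle : (X / M) ^ (-θ) ≤ 1 := Real.rpow_le_one_of_one_le_of_nonpos hXM1 (by linarith)
  have hXp : 0 < (X / M) ^ (-θ) := Real.rpow_pos_of_pos (by positivity) _
  have h1 : (ε * M / 6 + 1) * (∑ r ∈ range 6, F r (X / (z * (M + 1 / 4)))
        (R / (z * (M + 1 / 4)))) ≤ (ε * M / 6 + 1) * (6 * ((mean κ + η) * (X / M) ^ (-θ))) :=
    mul_le_mul_of_nonneg_left hsumF (by positivity)
  have h2 : (ε * M / 6 + 1) * (6 * ((mean κ + η) * (X / M) ^ (-θ))) =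
      (mean κ + η) * ε * M * (X / M) ^ (-θ) + 6 * (mean κ + η) * (X / M) ^ (-θ) := by ring
  have h3 : 6 * (mean κ + η) * (X / M) ^ (-θ) ≤
      6 * (mean κ + η) * ((M / R) ^ σ * M ^ b) := by
    refine mul_le_mul_of_nonneg_left ?_ (by positivity)
    have : 1 ≤ (M / R) ^ σ * M ^ b := by nlinarith
    linarith
  have e9 : (48 * B + 6 * (mean κ + η)) * (M / R) ^ σ * M ^ b =
      48 * B * (M / R) ^ σ * M ^ b +
      6 * (mean κ + η) * ((M / R) ^ σ * M ^ b) := by ring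
  rw [e9]
  linarith


lemma deep_upK {σ b₀ δ₀ U : ℝ} {u₀ : ℕ → ℝ} (hW : WP σ b₀ δ₀ U u₀) {θ : ℝ} {κ : ℕ → ℝ} (hθ0 : 0 < θ) (hκ : 0 ≤ mean κ)
    (hc : ∀ r : ℕ, r < 6 → Tendsto (fun L : ℝ => F r L 0 * L ^ θ) atTop (nhds (κ r)))
    {ρ β : ℝ} (hρ1 : 1 < ρ) (hβ0 : 1 / 2 ≤ β) (hβ1 : β < 1)
    (hρβ : b₀ + σ * (1 - β) < 1 - θ * (ρ - 1)) (h34 : 3 / 4 ≤ 1 - θ * (ρ - 1))
    {η : ℝ} (hη : 0 < η) :
    ∀ᶠ N : ℕ in atTop, (cnt (fun n => ExceedsB β ρ n ∨ StaysB β n) (N : ℝ) : ℝ) ≤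
      (mean κ / (1 - θ * (ρ - 1)) + η) * (N : ℝ) ^ (1 - θ * (ρ - 1)) := by
  set γ : ℝ := ρ - 1 with hγ
  have hγ0 : 0 < γ := by linarith
  set a : ℝ := 1 - θ * γ with ha
  set b : ℝ := b₀ + σ * (1 - β) with hb
  have hσ0 := hW.s0
  have hσ1 := hW.s1
  have hb₀ := hW.b0
  have hθγ0 : 0 < θ * γ := mul_pos hθ0 hγ0
  have hab : b < a := hρβ
  have hb0 : 0 < b := by
    rw [hb]
    have : 0 < σ * (1 - β) := mul_pos hσ0 (by linarith)
    linarith
  have ha0 : 0 < a := by linarith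
  have ha1 : a ≤ 1 := by rw [ha]; linarith
  -- the small parameters
  obtain ⟨ε₁, hε₁, hε₁4, hup⟩ := intUp0K hW hθ0 hκ hc (show 0 < η / 4 by linarith)
  obtain ⟨δ, hδ, hδ'⟩ := near_one (-(ρ * θ)) (s := η / 8 / (mean κ + η / 4 + 1)) (by positivity)
  set ε : ℝ := min ε₁ δ with hε
  have hε0 : 0 < ε := lt_min hε₁ hδ
  have hεδ : ε ≤ δ := min_le_right _ _
  have hεε : ε ≤ ε₁ := min_le_left _ _
  have hε4 : ε ≤ 1 / 4 := hεε.trans hε₁4
  obtain ⟨M0, L0, D, hM0, hL0, hD, hrec⟩ := hup ε hε0 hεε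
  have h1ε : 0 < 1 - ε := by linarith
  have hfac := (hδ' ε hε0 hεδ).1
  have hρε : 0 < (1 - ε) ^ ρ := Real.rpow_pos_of_pos h1ε _
  have tg : Tendsto (fun M : ℝ => (1 - ε) ^ ρ * M ^ γ) atTop atTop :=
    (tendsto_rpow_atTop hγ0).const_mul_atTop hρε
  obtain ⟨M2, hM2⟩ := Filter.eventually_atTop.mp (tg.eventually_ge_atTop L0)
  set M1 : ℝ := max (max M0 M2) 4 with hM1
  have hM1ge : 4 ≤ M1 := le_max_right _ _
  have hqa : (1 - ε) ^ a < 1 := Real.rpow_lt_one h1ε.le (by linarith) ha0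
  have hqb : (1 - ε) ^ b < 1 := Real.rpow_lt_one h1ε.le (by linarith) hb0
  set A : ℝ := (mean κ + η / 4) * ε * (1 - ε) ^ (-(ρ * θ)) with hA
  have hA0 : 0 ≤ A := by
    have := Real.rpow_nonneg h1ε.le (-(ρ * θ))
    positivity
  have hAa : A / (1 - (1 - ε) ^ a) ≤ mean κ / a + η / 2 := by
    have hb := bern_lo hε0 (by linarith) ha0 ha1
    have h1 : A / (1 - (1 - ε) ^ a) ≤ A / (a * ε) :=
      div_le_div_of_nonneg_left hA0 (by positivity) hb
    have h2 : A / (a * ε) = (mean κ + η / 4) * (1 - ε) ^ (-(ρ * θ)) / a := by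
      rw [hA]
      field_simp
    have h3 : (mean κ + η / 4) * (1 - ε) ^ (-(ρ * θ)) ≤ mean κ + η / 4 + η / 8 := by
      have h4 : (mean κ + η / 4) * (1 - ε) ^ (-(ρ * θ)) ≤
          (mean κ + η / 4) * (1 + η / 8 / (mean κ + η / 4 + 1)) :=
        mul_le_mul_of_nonneg_left hfac (by linarith)
      have h5 : (mean κ + η / 4) * (η / 8 / (mean κ + η / 4 + 1)) ≤ η / 8 := by
        rw [← mul_div_assoc, div_le_iff₀ (by positivity)]
        nlinarith
      nlinarith
    have h6 : (mean κ + η / 4) * (1 - ε) ^ (-(ρ * θ)) / a ≤ (mean κ + η / 4 + η / 8) / a :=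
      div_le_div_of_nonneg_right h3 ha0.le
    have h7 : (mean κ + η / 4 + η / 8) / a ≤ mean κ / a + η / 2 := by
      have e : (mean κ + η / 4 + η / 8) / a = mean κ / a + (η / 4 + η / 8) / a := by
        field_simp
        ring
      rw [e]
      have : (η / 4 + η / 8) / a ≤ η / 2 := by
        rw [div_le_iff₀ ha0]
        nlinarith
      linarith
    rw [h2] at h1
    linarith
  have hev := small_err2 M1 (2 * D / (1 - (1 - ε) ^ b)) hb0 hab (show 0 < η / 2 by linarith)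
  filter_upwards [hev, eventually_ge_atTop 1] with N h1 h2
  have hN0 : (0 : ℝ) < N := by exact_mod_cast h2
  have key := rec_up (f := fun M => (cnt (fun n => ExceedsB β ρ n ∨ StaysB β n) M : ℝ))
    (q := 1 - ε) (A := A) (D := 2 * D) (a := a) (b := b) (C := M1) (M1 := M1)
    h1ε (by linarith) ha0 hb0 hA0 (by linarith) (by linarith)
    (by linarith) (fun M hM hle => (cnt_le _ hM.le).trans hle)
    (by
      intro M hM
      have hMM0 : M0 ≤ M := ((le_max_left _ _).trans (le_max_left _ _)).trans hM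
      have hMM2 : M2 ≤ M := ((le_max_right _ _).trans (le_max_left _ _)).trans hM
      have hM4 : 4 ≤ M := (le_max_right _ _).trans hM
      have hMpos : 0 < M := by linarith
      set q : ℝ := (1 - ε) * M with hq
      have hq1 : 1 ≤ q := by
        rw [hq]
        nlinarith
      have hq0 : 0 < q := by linarith
      have hqM : q ≤ M := by
        rw [hq]
        nlinarith
      have eX : q ^ ρ = (1 - ε) ^ ρ * M ^ γ * M := by
        have e1 : M ^ ρ = M ^ γ * M := by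
          rw [← Real.rpow_add_one hMpos.ne']
          congr 1
          rw [hγ]
          ring
        rw [hq, Real.mul_rpow h1ε.le hMpos.le, e1]
        ring
      have hr := hrec M (q ^ ρ) (q ^ β) hMM0
        (Real.rpow_le_rpow_of_exponent_le hq1 hβ0)
        ((Real.rpow_le_rpow_of_exponent_le hq1 hβ1.le).trans (by
          rw [Real.rpow_one]
          exact hqM))
        (by
          rw [eX]
          exact mul_le_mul_of_nonneg_right (hM2 M hMM2) hMpos.le)
        (fun n => ExceedsB β ρ n ∨ StaysB β n) (by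
        intro n h1 h2 h3
        have hbn : q ^ β ≤ (n : ℝ) ^ β := Real.rpow_le_rpow hq0.le h1.le (by linarith)
        rcases h3 with h3 | h3
        · obtain ⟨i, hi, hj⟩ := h3
          refine Or.inl ⟨i, ?_, ?_⟩
          · have : q ^ ρ ≤ (n : ℝ) ^ ρ := Real.rpow_le_rpow hq0.le h1.le (by linarith)
            linarith
          · intro j hji
            exact hbn.trans (hj j hji)
        · exact Or.inr (fun j => hbn.trans (h3 j)))
      beta_reduce
      have e2 : (q ^ ρ / M) ^ (-θ) = (1 - ε) ^ (-(ρ * θ)) * M ^ (-(γ * θ)) := by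
        have e3 : q ^ ρ / M = (1 - ε) ^ ρ * M ^ γ := by
          rw [eX]
          field_simp
        rw [e3, Real.mul_rpow hρε.le (Real.rpow_nonneg hMpos.le _), ← Real.rpow_mul h1ε.le,
          ← Real.rpow_mul hMpos.le]
        congr 2 <;> ring
      have e3 : M * M ^ (-(γ * θ)) = M ^ a := by
        have : a = 1 + -(γ * θ) := by rw [ha]; ring
        rw [this, Real.rpow_add hMpos, Real.rpow_one]
      have h5 : D * (M / q ^ β) ^ σ * M ^ b₀ ≤ 2 * D * M ^ b := by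
        have h6 : M / q ^ β ≤ 2 * M ^ (1 - β) := by
          rw [div_le_iff₀ (Real.rpow_pos_of_pos hq0 _)]
          have h7 : M ^ (1 - β) * M ^ β = M := by
            rw [← Real.rpow_add hMpos]
            simp
          have h8 : 1 / 2 * M ^ β ≤ q ^ β := by
            rw [hq, Real.mul_rpow h1ε.le hMpos.le]
            refine mul_le_mul_of_nonneg_right ?_ (Real.rpow_nonneg hMpos.le _)
            have h9 : (1 - ε) ^ (1 : ℝ) ≤ (1 - ε) ^ β :=
              Real.rpow_le_rpow_of_exponent_ge h1ε (by linarith) hβ1.le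
            rw [Real.rpow_one] at h9
            linarith
          have h10 : M ^ (1 - β) * (1 / 2 * M ^ β) ≤ M ^ (1 - β) * q ^ β :=
            mul_le_mul_of_nonneg_left h8 (Real.rpow_nonneg hMpos.le _)
          have h11 : M ^ (1 - β) * (1 / 2 * M ^ β) = 1 / 2 * M := by
            have e : M ^ (1 - β) * (1 / 2 * M ^ β) = 1 / 2 * (M ^ (1 - β) * M ^ β) := by ring
            rw [e, h7]
          linarith
        have h6' : (M / q ^ β) ^ σ ≤ 2 * (M ^ (1 - β)) ^ σ := by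
          have g0 : 0 ≤ M / q ^ β := div_nonneg hMpos.le (Real.rpow_nonneg hq0.le _)
          have g1 : (M / q ^ β) ^ σ ≤ (2 * M ^ (1 - β)) ^ σ := Real.rpow_le_rpow g0 h6 hσ0.le
          rw [Real.mul_rpow (by norm_num) (Real.rpow_nonneg hMpos.le _)] at g1
          have g3 : (2 : ℝ) ^ σ ≤ 2 := by
            calc (2 : ℝ) ^ σ ≤ (2 : ℝ) ^ (1 : ℝ) :=
                  Real.rpow_le_rpow_of_exponent_le (by norm_num) hσ1
              _ = 2 := Real.rpow_one _
          exact g1.trans (mul_le_mul_of_nonneg_right g3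
            (Real.rpow_nonneg (Real.rpow_nonneg hMpos.le _) _))
        have e4 : M ^ b = (M ^ (1 - β)) ^ σ * M ^ b₀ := by
          rw [← Real.rpow_mul hMpos.le, ← Real.rpow_add hMpos, hb]
          congr 1
          ring
        rw [e4]
        have h12 : D * (M / q ^ β) ^ σ ≤ D * (2 * (M ^ (1 - β)) ^ σ) :=
          mul_le_mul_of_nonneg_left h6' hD
        have h13 := mul_le_mul_of_nonneg_right h12 (Real.rpow_nonneg hMpos.le b₀)
        linarith
      rw [e2] at hr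
      have e5 : (mean κ + η / 4) * ε * M * ((1 - ε) ^ (-(ρ * θ)) * M ^ (-(γ * θ))) =
          A * M ^ a := by
        rw [hA, ← e3]
        ring
      rw [e5] at hr
      linarith)
    N hN0
  beta_reduce at key
  have hp : 0 < (N : ℝ) ^ a := Real.rpow_pos_of_pos hN0 _
  have h3 := mul_le_mul_of_nonneg_right hAa hp.le
  have e9 : (mean κ / a + η) * (N : ℝ) ^ a = (mean κ / a + η / 2) * (N : ℝ) ^ a +
      η / 2 * (N : ℝ) ^ a := by ring
  rw [e9]
  linarith


end Pool.Agent.H12.EK
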