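import Pool.Agent.H12.EW.DensB

/-!
Weights for the upper bounds with a general tilt (MP_4d3999_nt, barrier `n ^ β`, `β > 0.6914`).
-/

set_option autoImplicit false

namespace Pool.Agent.H12.EK

/-- weights `u r` for the residues, tilt `s`, exponent `b`: the error `u r * T ^ b * (y / R) ^ s`
is a supersolution of the recursion of the counts, with the slack `δ` -/
structure WP (s b δ U : ℝ) (u : ℕ → ℝ) : Prop where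
  s0 : 0 < s
  s1 : s ≤ 1
  b0 : 0 < b
  b1 : b < 1
  δ0 : 0 < δ
  δ1 : δ ≤ 1
  low : ∀ r, δ ≤ u r
  up : ∀ r, u r ≤ U
  c0 : (2 : ℝ) ^ (-b) * (2 : ℝ) ^ (-s) * (u 0 + u 3) * (1 + δ) + δ ≤ u 0
  c2 : (2 : ℝ) ^ (-b) * (2 : ℝ) ^ (-s) * (u 1 + u 4) * (1 + δ) + δ ≤ u 2
  c4 : (2 : ℝ) ^ (-b) * (2 : ℝ) ^ (-s) * (u 2 + u 5) * (1 + δ) + δ ≤ u 4
  c3 : (3 : ℝ) ^ (-b) * (3 : ℝ) ^ (-s) * (u 1 + u 3 + u 5) * (1 + δ) + δ ≤ u 3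
  c1 : (5 : ℝ) ^ s * u 0 ≤ u 1
  c5 : (5 : ℝ) ^ s * u 2 ≤ u 5

end Pool.Agent.H12.EK
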