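import Pool.Agent.H12.EK.Up

/-!
The density of the `n` whose trajectory reaches `L * n` before it falls below `n ^ β`, for every
`β` for which there are weights.
-/

set_option autoImplicit false

namespace Pool.Agent.H12.EK

open Filter Finset Pool.Agent.H12.EU Pool.Agent.H83.EX Pool.Agent.H12.EV Pool.Agent.H12.EW

/-- Like `intUpA` in `Pool/Agent/H12/EW/DensB.lean`, with `upG` in place of `upF`: `43/50` becomes
`b` and `M / R` becomes `(M / R) ^ s` in the error. -/
lemma intUpK {s b δ U : ℝ} {u : ℕ → ℝ} (hW : WP s b δ U u) {ε A : ℝ} (hε : 0 < ε)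
    (hε2 : ε ≤ 1 / 4) (hA : 0 ≤ A) :
    ∃ M0 D : ℝ, 1 ≤ M0 ∧ 0 ≤ D ∧ ∀ M X R : ℝ, M0 ≤ M →
      ((1 - ε) * M) ^ (1 / 2 : ℝ) ≤ R → R ≤ M → 1 / 2 ≤ X →
      ∑ r ∈ range 6, F r (X / ((1 + ε) * M)) 0 ≤ 6 * A → ∀ P : ℕ → Prop,
      (∀ n : ℕ, (1 - ε) * M < n → (n : ℝ) ≤ M → P n → Reach X R n) →
      (cnt P M : ℝ) ≤ cnt P ((1 - ε) * M) + A * ε * M +
        D * (M / R) ^ s * M ^ b := by
  classical
  obtain ⟨B, hB0, hB⟩ := upG hW
  obtain ⟨M1, hM11, hM1⟩ := factor_bound0 hε hε2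
  refine ⟨max M1 4, 48 * B + 6 * A, hM11.trans (le_max_left _ _), by positivity, ?_⟩
  intro M X R hM hRlow hRM hx hXA P hP
  have hMM1 : M1 ≤ M := (le_max_left _ _).trans hM
  have hM4 : 4 ≤ M := (le_max_right _ _).trans hM
  have hM1' : 1 ≤ M := by linarith
  have hM0 : 0 < M := by linarith
  have hX0 : 0 < X := by linarith
  obtain ⟨hz1, hz2⟩ := hM1 M R hMM1 hRlow
  have hRhalf : 1 / 2 ≤ R := by
    refine le_trans ?_ hRlow
    have h1 : (1 : ℝ) ≤ ((1 - ε) * M) ^ (1 / 2 : ℝ) := Real.one_le_rpow (by nlinarith) (by norm_num)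
    linarith
  have hR0 : 0 < R := by linarith
  set q : ℝ := (1 - ε) * M with hq
  have hq0 : 0 < q := mul_pos (by linarith) hM0
  set m := Nat.log 2 ⌊M⌋₊ + 1 with hm
  set z : ℝ := (1 + 1 / (2 * R)) ^ m with hz
  have hz0 : 0 < z := by positivity
  have hab : q ≤ M := by rw [hq]; nlinarith
  have hsplit := cnt_split P hab
  set k0 := ⌊q⌋₊ with hk0
  set k1 := ⌊M⌋₊ with hk1
  have huw : k0 ≤ k1 := Nat.floor_le_floor hab
  have hl := card_Ioc_le P X R k0 k1 (by
    intro n h1 h2 h3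
    exact hP n ((Nat.floor_lt hq0.le).mp h1) ((Nat.le_floor_iff hM0.le).mp h2) h3)
  have hwlt : k1 < 2 ^ m := Nat.lt_pow_succ_log_self (by norm_num) k1
  have hwM : (k1 : ℝ) ≤ M := Nat.floor_le hM0.le
  have hzy0 : 0 < z * (M + 1 / 4) := by positivity
  have hL'' : X / ((1 + ε) * M) ≤ X / (z * (M + 1 / 4)) :=
    div_le_div_of_nonneg_left hX0.le hzy0 hz1
  have hsumF : ∑ r ∈ range 6, F r (X / (z * (M + 1 / 4))) (R / (z * (M + 1 / 4))) ≤ 6 * A :=
    (Finset.sum_le_sum (fun r _ => F_anti r hL'' (by positivity))).trans hXA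
  have hcls : ∀ j ∈ range 6, (NU (k0 + 1 + j) 1 X R ((k1 - k0 + 6 - 1 - j) / 6) : ℝ) ≤
      (ε * M / 6 + 1) * F ((k0 + 1 + j) % 6) (X / (z * (M + 1 / 4))) (R / (z * (M + 1 / 4))) +
        8 * B * (M / R) ^ s * M ^ b := by
    intro j hj
    rw [mem_range] at hj
    set T : ℕ := (k1 - k0 + 6 - 1 - j) / 6 with hT
    have hTw : T ≤ k1 := by omega
    have hup := hB X R hx hRhalf m T (by omega) (k0 + 1 + j) 1 M (by norm_num) (by norm_num)
      hM0.le (by
        intro t ht
        have h1 : k0 + 1 + j + 6 * 1 * t ≤ k1 := by omega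
        have h2 : ((k0 + 1 + j + 6 * 1 * t : ℕ) : ℝ) ≤ (k1 : ℝ) := by exact_mod_cast h1
        exact h2.trans hwM)
    rw [← hz] at hup
    refine hup.trans ?_
    have hT0 : (0 : ℝ) ≤ T := Nat.cast_nonneg T
    have hT1 : (T : ℝ) ≤ ε * M / 6 + 1 := by
      have h1 : T * 6 ≤ k1 - k0 + 5 := by omega
      have h2 : ((T * 6 : ℕ) : ℝ) ≤ ((k1 - k0 + 5 : ℕ) : ℝ) := by exact_mod_cast h1
      rw [Nat.cast_add, Nat.cast_sub huw] at h2
      push_cast at h2
      have h4 : q < k0 + 1 := Nat.lt_floor_add_one _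
      rw [hq] at h4
      linarith
    have hTM : (T : ℝ) ≤ M := by
      have h2 : (T : ℝ) ≤ (k1 : ℝ) := by exact_mod_cast hTw
      exact h2.trans hwM
    have hTp : (T : ℝ) ^ b ≤ M ^ b :=
      Real.rpow_le_rpow hT0 hTM hW.b0.le
    have hyR0 : (M + 1 / 4) / R ≤ 4 * (M / R) := by
      rw [← mul_div_assoc]
      exact div_le_div_of_nonneg_right (by linarith) hR0.le
    have hyR : ((M + 1 / 4) / R) ^ s ≤ 4 * (M / R) ^ s := by
      calc ((M + 1 / 4) / R) ^ s ≤ (4 * (M / R)) ^ s :=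
            Real.rpow_le_rpow (by positivity) hyR0 hW.s0.le
        _ = (4 : ℝ) ^ s * (M / R) ^ s := Real.mul_rpow (by norm_num) (by positivity)
        _ ≤ 4 * (M / R) ^ s := by
            refine mul_le_mul_of_nonneg_right ?_ (Real.rpow_nonneg (by positivity) _)
            calc (4 : ℝ) ^ s ≤ (4 : ℝ) ^ (1 : ℝ) :=
                  Real.rpow_le_rpow_of_exponent_le (by norm_num) hW.s1
              _ = 4 := Real.rpow_one 4
    have hFnn : 0 ≤ F ((k0 + 1 + j) % 6) (X / (z * (M + 1 / 4))) (R / (z * (M + 1 / 4))) :=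
      F_nonneg _ _ _
    have hMR0 : 0 ≤ M / R := by positivity
    refine add_le_add (mul_le_mul_of_nonneg_right hT1 hFnn) ?_
    calc B * z * (T : ℝ) ^ b * ((M + 1 / 4) / R) ^ s
        ≤ B * 2 * M ^ b * (4 * (M / R) ^ s) := by
          refine mul_le_mul ?_ hyR (by positivity) (by positivity)
          refine mul_le_mul ?_ hTp (by positivity) (by positivity)
          exact mul_le_mul_of_nonneg_left hz2 hB0
      _ = 8 * B * (M / R) ^ s * M ^ b := by ring
  have hsum := Finset.sum_le_sum hcls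
  have hsum2 : ∑ j ∈ range 6, ((ε * M / 6 + 1) * F ((k0 + 1 + j) % 6)
      (X / (z * (M + 1 / 4))) (R / (z * (M + 1 / 4))) + 8 * B * (M / R) ^ s * M ^ b) =
      (ε * M / 6 + 1) * (∑ r ∈ range 6, F r (X / (z * (M + 1 / 4)))
        (R / (z * (M + 1 / 4)))) + 48 * B * (M / R) ^ s * M ^ b := by
    rw [Finset.sum_add_distrib, ← Finset.mul_sum,
      sum_mod (fun r => F r (X / (z * (M + 1 / 4))) (R / (z * (M + 1 / 4)))) (k0 + 1)]
    simp
    ring
  rw [hsum2] at hsum
  have hcast : (((Ioc k0 k1).filter P).card : ℝ) ≤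
      ∑ j ∈ range 6, (NU (k0 + 1 + j) 1 X R ((k1 - k0 + 6 - 1 - j) / 6) : ℝ) := by
    exact_mod_cast hl
  have hsr : (cnt P M : ℝ) = (cnt P q : ℝ) + (((Ioc k0 k1).filter P).card : ℝ) := by
    exact_mod_cast hsplit
  rw [hsr]
  have hM1p : 1 ≤ M ^ b := Real.one_le_rpow hM1' hW.b0.le
  have hMR1 : 1 ≤ M / R := by
    rw [le_div_iff₀ hR0]
    linarith
  have h1 : (ε * M / 6 + 1) * (∑ r ∈ range 6, F r (X / (z * (M + 1 / 4)))
        (R / (z * (M + 1 / 4)))) ≤ (ε * M / 6 + 1) * (6 * A) :=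
    mul_le_mul_of_nonneg_left hsumF (by positivity)
  have h3 : 6 * A ≤ 6 * A * ((M / R) ^ s * M ^ b) := by
    have hMRs : 1 ≤ (M / R) ^ s := Real.one_le_rpow hMR1 hW.s0.le
    have : 1 ≤ (M / R) ^ s * M ^ b := one_le_mul_of_one_le_of_one_le hMRs hM1p
    nlinarith
  have e9 : (48 * B + 6 * A) * (M / R) ^ s * M ^ b =
      48 * B * (M / R) ^ s * M ^ b + 6 * A * ((M / R) ^ s * M ^ b) := by ring
  rw [e9]
  linarith

/-- Like `dens_up` in `Pool/Agent/H12/EW/DensB.lean`, the exponent of the error is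
`b + s * (1 - β) < 1`. -/
lemma dens_upK {θ : ℝ} {v : ℕ → ℝ} (hPar : Par θ v) {s b δ U : ℝ} {u : ℕ → ℝ}
    (hW : WP s b δ U u) {L β : ℝ} (hL : 0 < L) (hβ0 : 1 / 2 ≤ β) (hβ1 : β < 1)
    (hβ : b + s * (1 - β) < 1) {η : ℝ} (hη : 0 < η) :
    ∀ᶠ N : ℕ in atTop, (cnt (fun n => ReachB β L n ∨ StaysB β n) (N : ℝ) : ℝ) ≤
      (reach L + η) * (N : ℝ) := by
  have hre0 : 0 ≤ reach L := by
    rw [reach_eq]
    unfold mod
    exact div_nonneg (Finset.sum_nonneg (fun r _ => F_nonneg r L 0)) (by norm_num)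
  obtain ⟨c, hc⟩ : ∃ c : ℝ, c = b + s * (1 - β) := ⟨_, rfl⟩
  have hs0 : 0 ≤ s * (1 - β) := mul_nonneg hW.s0.le (by linarith)
  have hab : c < 1 := by rw [hc]; exact hβ
  have hb0 : 0 < c := by
    rw [hc]
    linarith [hW.b0]
  have h2 : ∀ᶠ ε : ℝ in nhdsWithin 0 (Set.Ioi 0), ε < 1 / 2 := by
    have : ∀ᶠ ε : ℝ in nhds 0, ε < 1 / 2 := gt_mem_nhds (by norm_num)
    exact nhdsWithin_le_nhds this
  obtain ⟨ε', he1, he2, he3⟩ := ((left0 hPar hL (show 0 < η / 2 by linarith)).and
    (h2.and self_mem_nhdsWithin)).exists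
  have he3' : 0 < ε' := he3
  set ε : ℝ := ε' / 2 with hε
  have hε0 : 0 < ε := by rw [hε]; linarith
  have hε4 : ε ≤ 1 / 4 := by rw [hε]; linarith
  have h1ε : 0 < 1 - ε := by linarith
  set A : ℝ := reach L + η / 2 with hA
  have hA0 : 0 ≤ A := by rw [hA]; linarith
  obtain ⟨M0, D, hM0, hD, hrec⟩ := intUpK hW hε0 hε4 hA0
  set M1 : ℝ := max (max M0 (1 / L)) 4 with hM1
  have hM1ge : 4 ≤ M1 := le_max_right _ _
  have hqb : (1 - ε) ^ c < 1 := Real.rpow_lt_one h1ε.le (by linarith) hb0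
  have hsumA : ∑ r ∈ range 6, F r (L * (1 - ε) / (1 + ε)) 0 ≤ 6 * A := by
    refine le_trans (Finset.sum_le_sum (fun r _ => F_anti r ?_ le_rfl)) he1
    rw [le_div_iff₀ (by linarith), mul_assoc]
    refine mul_le_mul_of_nonneg_left ?_ hL.le
    rw [hε]
    nlinarith
  have hev := small_err2 M1 (2 * D / (1 - (1 - ε) ^ c)) hb0 hab (show 0 < η / 2 by linarith)
  filter_upwards [hev, eventually_ge_atTop 1] with N h1 h2
  have hN0 : (0 : ℝ) < N := by exact_mod_cast h2
  have key := rec_up (f := fun M => (cnt (fun n => ReachB β L n ∨ StaysB β n) M : ℝ))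
    (q := 1 - ε) (A := A * ε) (D := 2 * D) (a := 1) (b := c) (C := M1) (M1 := M1)
    h1ε (by linarith) one_pos hb0 (by positivity) (by linarith) (by linarith)
    (by linarith) (fun M hM hle => (cnt_le _ hM.le).trans hle)
    (by
      intro M hM
      have hMM0 : M0 ≤ M := ((le_max_left _ _).trans (le_max_left _ _)).trans hM
      have hMM2 : 1 / L ≤ M := ((le_max_right _ _).trans (le_max_left _ _)).trans hM
      have hM4 : 4 ≤ M := (le_max_right _ _).trans hM
      have hMpos : 0 < M := by linarith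
      set q : ℝ := (1 - ε) * M with hq
      have hq1 : 1 ≤ q := by
        rw [hq]
        nlinarith
      have hq0 : 0 < q := by linarith
      have hqM : q ≤ M := by
        rw [hq]
        nlinarith
      have hLq : 1 / 2 ≤ L * q := by
        rw [div_le_iff₀ hL] at hMM2
        have h3 : 1 / 2 * M ≤ q := by
          rw [hq]
          exact mul_le_mul_of_nonneg_right (by linarith) hMpos.le
        have h4 := mul_le_mul_of_nonneg_left h3 hL.le
        linarith
      have hr := hrec M (L * q) (q ^ β) hMM0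
        (Real.rpow_le_rpow_of_exponent_le hq1 hβ0)
        ((Real.rpow_le_rpow_of_exponent_le hq1 hβ1.le).trans (by
          rw [Real.rpow_one]
          exact hqM))
        hLq
        (by
          have e : L * q / ((1 + ε) * M) = L * (1 - ε) / (1 + ε) := by
            rw [hq]
            have : (1 + ε) ≠ 0 := by linarith
            field_simp
          rw [e]
          exact hsumA)
        (fun n => ReachB β L n ∨ StaysB β n) (by
        intro n h1 h2 h3
        have hbn : q ^ β ≤ (n : ℝ) ^ β := Real.rpow_le_rpow hq0.le h1.le (by linarith)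
        rcases h3 with h3 | h3
        · obtain ⟨i, hi, hj⟩ := h3
          refine Or.inl ⟨i, ?_, ?_⟩
          · have : L * q ≤ L * n := mul_le_mul_of_nonneg_left h1.le hL.le
            linarith
          · intro j hji
            exact hbn.trans (hj j hji)
        · exact Or.inr (fun j => hbn.trans (h3 j)))
      beta_reduce
      have h5 : D * (M / q ^ β) ^ s * M ^ b ≤ 2 * D * M ^ c := by
        have h6 : M / q ^ β ≤ 2 * M ^ (1 - β) := by
          rw [div_le_iff₀ (Real.rpow_pos_of_pos hq0 _)]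
          have h7 : M ^ (1 - β) * M ^ β = M := by
            rw [← Real.rpow_add hMpos]
            simp
          have h8 : 1 / 2 * M ^ β ≤ q ^ β := by
            rw [hq, Real.mul_rpow h1ε.le hMpos.le]
            refine mul_le_mul_of_nonneg_right ?_ (Real.rpow_nonneg hMpos.le _)
            have h9 : (1 - ε) ^ (1 : ℝ) ≤ (1 - ε) ^ β :=
              Real.rpow_le_rpow_of_exponent_ge h1ε (by linarith) hβ1.le
            rw [Real.rpow_one] at h9
            linarith
          have h10 : M ^ (1 - β) * (1 / 2 * M ^ β) ≤ M ^ (1 - β) * q ^ β :=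
            mul_le_mul_of_nonneg_left h8 (Real.rpow_nonneg hMpos.le _)
          have h11 : M ^ (1 - β) * (1 / 2 * M ^ β) = 1 / 2 * M := by
            have e : M ^ (1 - β) * (1 / 2 * M ^ β) = 1 / 2 * (M ^ (1 - β) * M ^ β) := by ring
            rw [e, h7]
          linarith
        have h6' : (M / q ^ β) ^ s ≤ 2 * M ^ (s * (1 - β)) := by
          have hnn : 0 ≤ M / q ^ β := div_nonneg hMpos.le (Real.rpow_nonneg hq0.le _)
          calc (M / q ^ β) ^ s ≤ (2 * M ^ (1 - β)) ^ s := Real.rpow_le_rpow hnn h6 hW.s0.le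
            _ = (2 : ℝ) ^ s * (M ^ (1 - β)) ^ s :=
                Real.mul_rpow (by norm_num) (Real.rpow_nonneg hMpos.le _)
            _ = (2 : ℝ) ^ s * M ^ (s * (1 - β)) := by
                rw [← Real.rpow_mul hMpos.le, mul_comm (1 - β) s]
            _ ≤ 2 * M ^ (s * (1 - β)) := by
                refine mul_le_mul_of_nonneg_right ?_ (Real.rpow_nonneg hMpos.le _)
                calc (2 : ℝ) ^ s ≤ (2 : ℝ) ^ (1 : ℝ) :=
                      Real.rpow_le_rpow_of_exponent_le (by norm_num) hW.s1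
                  _ = 2 := Real.rpow_one 2
        have e4 : M ^ c = M ^ (s * (1 - β)) * M ^ b := by
          rw [← Real.rpow_add hMpos, hc]
          congr 1
          ring
        rw [e4]
        have h12 : D * (M / q ^ β) ^ s ≤ D * (2 * M ^ (s * (1 - β))) :=
          mul_le_mul_of_nonneg_left h6' hD
        have h13 := mul_le_mul_of_nonneg_right h12 (Real.rpow_nonneg hMpos.le b)
        linarith
      rw [Real.rpow_one]
      linarith)
    N hN0
  beta_reduce at key
  have e5 : A * ε / (1 - (1 - ε) ^ (1 : ℝ)) = A := by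
    rw [Real.rpow_one]
    have : 1 - (1 - ε) = ε := by ring
    rw [this]
    field_simp
  rw [e5, Real.rpow_one] at key
  rw [Real.rpow_one] at h1
  rw [hA] at key
  linarith

end Pool.Agent.H12.EK
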