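import Pool.Agent.H12.EK.Defs

/-!
The upper bound for `NU` by the model probabilities `F`, error with a general tilt.
(The proof follows `Pool/Agent/H19/EV/UpF.lean` of helper19.)
-/

set_option autoImplicit false

namespace Pool.Agent.H12.EK

open Pool.Agent.H12.EV Pool.Agent.H12.EU Pool.Agent.H83.EX Finset

/-- the comparison function: `z` the rounding factor, `m` the level -/
noncomputable def HG (u : ℕ → ℝ) (σ b K z : ℝ) (m r : ℕ) (x R y T : ℝ) : ℝ :=
  T * F r (x / (z ^ m * y)) (R / (z ^ m * y)) + K * u r * z ^ m * T ^ b * (y / R) ^ σ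

lemma HG_nonneg {σ b δ U : ℝ} {u : ℕ → ℝ} (hW : WP σ b δ U u) {K : ℝ} (hK : 0 ≤ K) {z : ℝ}
    (hz : 0 ≤ z) (m r : ℕ) {x R y T : ℝ} (hR : 0 < R) (hy : 0 ≤ y)
    (hT : 0 ≤ T) : 0 ≤ HG u σ b K z m r x R y T := by
  unfold HG
  have h1 := F_nonneg r (x / (z ^ m * y)) (R / (z ^ m * y))
  have h2 : 0 ≤ u r := hW.δ0.le.trans (hW.low r)
  positivity

lemma baseG {σ b δ U : ℝ} {u : ℕ → ℝ} (hW : WP σ b δ U u) {K : ℝ} {T0 : ℕ} (hK : 0 ≤ K)
    (hKT : (T0 : ℝ) ≤ K * δ) {x R : ℝ} (hR : 0 < R) {z : ℝ} (hz : 1 ≤ z)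
    (m T A Q : ℕ) (Y : ℝ) (hY : 0 ≤ Y)
    (hel : ∀ s, s < T → ((A + 6 * Q * s : ℕ) : ℝ) ≤ Y)
    (hc : Y < R ∨ x ≤ z ^ m * (Y + 1 / 4) ∨ T < T0) :
    (NU A Q x R T : ℝ) ≤ HG u σ b K z m (A % 6) x R (Y + 1 / 4) T := by
  have hT0 : (0 : ℝ) ≤ T := Nat.cast_nonneg T
  have hzm : 1 ≤ z ^ m := one_le_pow₀ hz
  have hy0 : 0 < Y + 1 / 4 := by linarith
  have hH0 : 0 ≤ HG u σ b K z m (A % 6) x R (Y + 1 / 4) T :=
    HG_nonneg hW hK (by linarith) _ _ hR hy0.le hT0
  by_cases h1 : Y < R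
  · rw [NU_zero A Q x R T (fun s hs => (hel s hs).trans_lt h1)]
    simpa using hH0
  · have h1' : R ≤ Y := not_lt.mp h1
    have hNT : (NU A Q x R T : ℝ) ≤ T := by exact_mod_cast NU_le A Q x R T
    have hp0 : 0 ≤ (T : ℝ) ^ b := Real.rpow_nonneg hT0 _
    have hu0 : 0 ≤ u (A % 6) := hW.δ0.le.trans (hW.low _)
    have hd0 : 0 < z ^ m * (Y + 1 / 4) := mul_pos (by linarith) hy0
    rcases hc with h2 | h2 | h2
    · exact absurd h2 h1
    · refine hNT.trans ?_
      unfold HG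
      have hF : F (A % 6) (x / (z ^ m * (Y + 1 / 4))) (R / (z ^ m * (Y + 1 / 4))) = 1 := by
        apply F_one
        · rw [div_le_one hd0]
          exact h2
        · rw [div_le_one hd0]
          nlinarith
      rw [hF, mul_one]
      have : 0 ≤ K * u (A % 6) * z ^ m * (T : ℝ) ^ b * ((Y + 1 / 4) / R) ^ σ := by
        positivity
      linarith
    · rcases Nat.eq_zero_or_pos T with hT | hT
      · subst hT
        refine hNT.trans ?_
        simpa using hH0
      · refine hNT.trans ?_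
        have hT1 : (1 : ℝ) ≤ T := by exact_mod_cast hT
        have hT2 : (T : ℝ) ≤ T0 := by exact_mod_cast h2.le
        have h3 := hW.low (A % 6)
        have h4 : 1 ≤ (T : ℝ) ^ b := Real.one_le_rpow hT1 hW.b0.le
        have h5 : 1 ≤ ((Y + 1 / 4) / R) ^ σ := by
          refine Real.one_le_rpow ?_ hW.s0.le
          rw [one_le_div hR]
          linarith
        have h6 : (T : ℝ) ≤ K * u (A % 6) := by
          have := mul_le_mul_of_nonneg_left h3 hK
          linarith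
        have h6' : 0 ≤ K * u (A % 6) := by positivity
        have h7 : (T : ℝ) ≤ K * u (A % 6) * z ^ m := by
          have := mul_le_mul_of_nonneg_left hzm h6'
          linarith
        have h7' : 0 ≤ K * u (A % 6) * z ^ m := by positivity
        have h8 : (T : ℝ) ≤ K * u (A % 6) * z ^ m * (T : ℝ) ^ b := by
          have := mul_le_mul_of_nonneg_left h4 h7'
          linarith
        have h8' : 0 ≤ K * u (A % 6) * z ^ m * (T : ℝ) ^ b := by positivity
        have h9 : (T : ℝ) ≤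
            K * u (A % 6) * z ^ m * (T : ℝ) ^ b * ((Y + 1 / 4) / R) ^ σ := by
          have := mul_le_mul_of_nonneg_left h5 h8'
          linarith
        unfold HG
        have h10 : 0 ≤ (T : ℝ) * F (A % 6) (x / (z ^ m * (Y + 1 / 4)))
            (R / (z ^ m * (Y + 1 / 4))) := mul_nonneg hT0 (F_nonneg _ _ _)
        linarith

lemma childG {σ b δ U : ℝ} {u : ℕ → ℝ} (hW : WP σ b δ U u) {K : ℝ} (hK : 0 ≤ K)
    {x R : ℝ} (hx : 0 < x) (hR : 0 < R) {z : ℝ} (hz : z = 1 + 1 / (2 * R))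
    {k T T' : ℕ} (hk : k = 2 ∨ k = 3) (hTT : (T' : ℝ) * k ≤ T + (k - 1)) {Y : ℝ} (hY : R ≤ Y)
    (m r : ℕ) :
    HG u σ b K z m r x R (Y / k + 1 / 4) T' ≤
      (T + (k - 1)) / k * F r (k * (x / (z ^ (m + 1) * (Y + 1 / 4))))
        (k * (R / (z ^ (m + 1) * (Y + 1 / 4)))) +
      K * u r * z ^ m * ((T + (k - 1)) / k : ℝ) ^ b *
        ((Y + 1 / 4) / k * z / R) ^ σ := by
  have hk2 : (2 : ℝ) ≤ k := by
    rcases hk with h | h <;> rw [h] <;> norm_num
  have hk3 : (k : ℝ) ≤ 3 := by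
    rcases hk with h | h <;> rw [h] <;> norm_num
  have hk0 : (0 : ℝ) < k := by linarith
  have hz1 : 1 ≤ z := by
    rw [hz]
    have : 0 < 1 / (2 * R) := by positivity
    linarith
  have hz0 : 0 < z := by linarith
  have hY0 : 0 < Y := by linarith
  have hyk : Y / k + 1 / 4 ≤ (Y + 1 / 4) / k * z := by
    have e : (Y + 1 / 4) / k * z =
        Y / k + 1 / 4 / k + (Y + 1 / 4) / R * (1 / (2 * k)) := by
      rw [hz]
      field_simp
    rw [e]
    have h1 : 1 ≤ (Y + 1 / 4) / R := by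
      rw [one_le_div hR]
      linarith
    have h2 : 0 < 1 / (2 * (k : ℝ)) := by positivity
    have h3 : 1 / (2 * (k : ℝ)) ≤ (Y + 1 / 4) / R * (1 / (2 * k)) := by nlinarith
    have h4 : (1 : ℝ) / 4 ≤ 1 / 4 / k + 1 / (2 * k) := by
      have : (1 : ℝ) / 4 / k + 1 / (2 * k) = 3 / 4 / k := by
        field_simp
        norm_num
      rw [this, le_div_iff₀ hk0]
      linarith
    linarith
  have hyk0 : 0 < Y / k + 1 / 4 := by positivity
  have hTk : (T' : ℝ) ≤ (T + (k - 1)) / k := by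
    rw [le_div_iff₀ hk0]
    exact hTT
  have hzm : 0 < z ^ m := by positivity
  have hT'0 : (0 : ℝ) ≤ T' := Nat.cast_nonneg _
  have hanti : ∀ c : ℝ, 0 ≤ c → k * (c / (z ^ (m + 1) * (Y + 1 / 4))) ≤
      c / (z ^ m * (Y / k + 1 / 4)) := by
    intro c hc
    have e : k * (c / (z ^ (m + 1) * (Y + 1 / 4))) = c / (z ^ m * ((Y + 1 / 4) / k * z)) := by
      rw [pow_succ]
      have : Y + 1 / 4 ≠ 0 := by positivity
      field_simp
    rw [e]
    apply div_le_div_of_nonneg_left hc (by positivity)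
    exact mul_le_mul_of_nonneg_left hyk hzm.le
  unfold HG
  have hu0 : 0 ≤ u r := hW.δ0.le.trans (hW.low r)
  refine add_le_add ?_ ?_
  · refine mul_le_mul hTk (F_anti r (hanti x hx.le) (hanti R hR.le)) (F_nonneg _ _ _)
      (hT'0.trans hTk)
  · have h1 : (T' : ℝ) ^ b ≤ ((T + (k - 1)) / k : ℝ) ^ b :=
      Real.rpow_le_rpow hT'0 hTk hW.b0.le
    have h2 : ((Y / k + 1 / 4) / R) ^ σ ≤ ((Y + 1 / 4) / k * z / R) ^ σ :=
      Real.rpow_le_rpow (by positivity) (div_le_div_of_nonneg_right hyk hR.le) hW.s0.le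
    refine mul_le_mul (mul_le_mul_of_nonneg_left h1 (by positivity)) h2 (by positivity) ?_
    have h3 : 0 ≤ ((T + (k - 1)) / k : ℝ) := hT'0.trans hTk
    positivity

lemma stepG {σ b δ U : ℝ} {u : ℕ → ℝ} (hW : WP σ b δ U u) {K : ℝ} {T0 : ℕ}
    (hTδ : 2 ≤ T0 * δ) (hK2 : 2 ≤ K * δ) (hT01 : 1 ≤ T0) {x R : ℝ} (hR : 0 < R) {z : ℝ}
    (hz : 1 ≤ z)
    {k T : ℕ} (hk : k = 2 ∨ k = 3) (hT : T0 ≤ T) {y : ℝ} (hRy : R ≤ y) (m r : ℕ) {FS US : ℝ}
    (hFS : FS / k = F r (x / (z ^ (m + 1) * y)) (R / (z ^ (m + 1) * y))) (hUS : 0 ≤ US)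
    (hu : (k : ℝ) ^ (-b) * (k : ℝ) ^ (-σ) * US * (1 + δ) + δ ≤ u r) :
    (T + (k - 1)) / k * FS +
      K * US * z ^ m * ((T + (k - 1)) / k : ℝ) ^ b * (y / k * z / R) ^ σ ≤
      HG u σ b K z (m + 1) r x R y T := by
  have hδ0 := hW.δ0
  have hK : 0 ≤ K := by
    by_contra hneg
    have h1 : K * δ ≤ 0 := mul_nonpos_of_nonpos_of_nonneg (by linarith) hδ0.le
    linarith
  have hk2 : (2 : ℝ) ≤ k := by
    rcases hk with h | h <;> rw [h] <;> norm_num
  have hk3 : (k : ℝ) ≤ 3 := by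
    rcases hk with h | h <;> rw [h] <;> norm_num
  have hk0 : (0 : ℝ) < k := by linarith
  have hT1 : (T0 : ℝ) ≤ T := by exact_mod_cast hT
  have hT01' : (1 : ℝ) ≤ T0 := by exact_mod_cast hT01
  have hT0 : (0 : ℝ) < T := by linarith
  have hy0 : 0 < y := by linarith
  have hz0 : 0 < z := by linarith
  set f : ℝ := F r (x / (z ^ (m + 1) * y)) (R / (z ^ (m + 1) * y)) with hf
  have hf0 : 0 ≤ f := F_nonneg _ _ _
  have hf1 : f ≤ 1 := F_le_one _ _ _
  have p1 : (T + (k - 1)) / k * FS ≤ T * f + 2 := by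
    have e : ((T : ℝ) + (k - 1)) / k * FS = (T + (k - 1)) * (FS / k) := by ring
    rw [e, hFS]
    nlinarith
  have q1 : ((T + (k - 1)) / k : ℝ) ^ b ≤
      (T : ℝ) ^ b * (1 + δ) * (k : ℝ) ^ (-b) := by
    have h0 : (0 : ℝ) ≤ T + (k - 1) := by linarith
    rw [Real.div_rpow h0 hk0.le, Real.rpow_neg hk0.le, ← div_eq_mul_inv]
    refine div_le_div_of_nonneg_right ?_ (Real.rpow_nonneg hk0.le _)
    have h1 : (T : ℝ) + (k - 1) ≤ T * (1 + δ) := by
      have h2 : (T0 : ℝ) * δ ≤ T * δ := mul_le_mul_of_nonneg_right hT1 hδ0.le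
      linarith
    calc ((T : ℝ) + (k - 1)) ^ b ≤ (T * (1 + δ)) ^ b :=
          Real.rpow_le_rpow h0 h1 hW.b0.le
      _ = (T : ℝ) ^ b * (1 + δ) ^ b :=
          Real.mul_rpow hT0.le (by linarith)
      _ ≤ (T : ℝ) ^ b * (1 + δ) := by
          refine mul_le_mul_of_nonneg_left ?_ (Real.rpow_nonneg hT0.le _)
          calc ((1 : ℝ) + δ) ^ b ≤ (1 + δ) ^ (1 : ℝ) :=
                Real.rpow_le_rpow_of_exponent_le (by linarith) hW.b1.le
            _ = 1 + δ := Real.rpow_one _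
  have q2 : (y / k * z / R) ^ σ ≤ (y / R) ^ σ * z * (k : ℝ) ^ (-σ) := by
    have e : y / k * z / R = (y / R) * z / k := by
      field_simp
    rw [e, Real.div_rpow (by positivity) hk0.le, Real.mul_rpow (by positivity) hz0.le,
      Real.rpow_neg hk0.le, ← div_eq_mul_inv]
    refine div_le_div_of_nonneg_right ?_ (Real.rpow_nonneg hk0.le _)
    refine mul_le_mul_of_nonneg_left ?_ (by positivity)
    calc z ^ σ ≤ z ^ (1 : ℝ) := Real.rpow_le_rpow_of_exponent_le hz hW.s1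
      _ = z := Real.rpow_one _
  have hTp0 : 1 ≤ (T : ℝ) ^ b := Real.one_le_rpow (by linarith) hW.b0.le
  have hyR1 : 1 ≤ (y / R) ^ σ := by
    refine Real.one_le_rpow ?_ hW.s0.le
    rw [one_le_div hR]
    exact hRy
  have hzm1 : 1 ≤ z ^ (m + 1) := one_le_pow₀ hz
  have hkp : 0 < (k : ℝ) ^ (-b) := Real.rpow_pos_of_pos hk0 _
  have hkq : 0 < (k : ℝ) ^ (-σ) := Real.rpow_pos_of_pos hk0 _
  have hzz : z ^ (m + 1) = z ^ m * z := pow_succ _ _
  have hq10 : 0 ≤ ((T + (k - 1)) / k : ℝ) ^ b := by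
    refine Real.rpow_nonneg (div_nonneg ?_ hk0.le) _
    linarith
  have p2 : K * US * z ^ m * ((T + (k - 1)) / k : ℝ) ^ b * (y / k * z / R) ^ σ ≤
      K * (u r - δ) * z ^ (m + 1) * (T : ℝ) ^ b * (y / R) ^ σ := by
    calc K * US * z ^ m * ((T + (k - 1)) / k : ℝ) ^ b * (y / k * z / R) ^ σ
        ≤ K * US * z ^ m *
          ((T : ℝ) ^ b * (1 + δ) * (k : ℝ) ^ (-b)) *
          ((y / R) ^ σ * z * (k : ℝ) ^ (-σ)) := by
          refine mul_le_mul (mul_le_mul_of_nonneg_left q1 (by positivity)) q2 ?_ ?_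
          · exact Real.rpow_nonneg (by positivity) _
          · have : 0 ≤ 1 + δ := by linarith
            positivity
      _ = K * ((k : ℝ) ^ (-b) * (k : ℝ) ^ (-σ) * US * (1 + δ)) *
          z ^ (m + 1) * (T : ℝ) ^ b * (y / R) ^ σ := by
          rw [hzz]
          ring
      _ ≤ K * (u r - δ) * z ^ (m + 1) * (T : ℝ) ^ b * (y / R) ^ σ := by
          have h7 : (k : ℝ) ^ (-b) * (k : ℝ) ^ (-σ) * US * (1 + δ) ≤ u r - δ := by
            linarith
          exact mul_le_mul_of_nonneg_right (mul_le_mul_of_nonneg_right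
            (mul_le_mul_of_nonneg_right (mul_le_mul_of_nonneg_left h7 hK)
              (by positivity)) (by positivity)) (by positivity)
  have p3 : 2 ≤ K * δ * z ^ (m + 1) * (T : ℝ) ^ b * (y / R) ^ σ := by
    have h0 : 0 ≤ K * δ := by linarith
    have h1 : (2 : ℝ) ≤ K * δ * z ^ (m + 1) := by
      have := mul_le_mul_of_nonneg_left hzm1 h0
      linarith
    have h1' : 0 ≤ K * δ * z ^ (m + 1) := by linarith
    have h2 : (2 : ℝ) ≤ K * δ * z ^ (m + 1) * (T : ℝ) ^ b := by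
      have := mul_le_mul_of_nonneg_left hTp0 h1'
      linarith
    have h2' : 0 ≤ K * δ * z ^ (m + 1) * (T : ℝ) ^ b := by linarith
    have := mul_le_mul_of_nonneg_left hyR1 h2'
    linarith
  unfold HG
  rw [← hf]
  have e : K * u r * z ^ (m + 1) * (T : ℝ) ^ b * (y / R) ^ σ =
      K * (u r - δ) * z ^ (m + 1) * (T : ℝ) ^ b * (y / R) ^ σ +
      K * δ * z ^ (m + 1) * (T : ℝ) ^ b * (y / R) ^ σ := by ring
  rw [e]
  linarith

theorem mainG {σ b δ U : ℝ} {u : ℕ → ℝ} (hW : WP σ b δ U u) {K : ℝ} {T0 : ℕ} (hT0 : 2 ≤ T0)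
    (hTδ : 2 ≤ T0 * δ) (hKT : (T0 : ℝ) ≤ K * δ) (hK2 : 2 ≤ K * δ) {x R : ℝ} (hx : 1 / 2 ≤ x)
    (hR : 0 < R) {z : ℝ} (hz : z = 1 + 1 / (2 * R)) :
    ∀ (m T : ℕ), T ≤ 2 ^ m → ∀ (A Q : ℕ) (Y : ℝ), Q % 2 = 1 → Q % 3 ≠ 0 → 0 ≤ Y →
      (∀ s, s < T → ((A + 6 * Q * s : ℕ) : ℝ) ≤ Y) →
      (NU A Q x R T : ℝ) ≤ HG u σ b K z m (A % 6) x R (Y + 1 / 4) T := by
  have hx0 : 0 < x := by linarith
  have hδ0 := hW.δ0
  have hK0 : 0 ≤ K := by
    by_contra hneg
    have h1 : K * δ ≤ 0 := mul_nonpos_of_nonpos_of_nonneg (by linarith) hδ0.le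
    linarith
  have hu0 : ∀ r, 0 ≤ u r := fun r => hδ0.le.trans (hW.low r)
  have hz1 : 1 ≤ z := by
    rw [hz]
    have : 0 < 1 / (2 * R) := by positivity
    linarith
  have hz0 : 0 < z := by linarith
  -- what the negation of the base case gives
  have nb : ∀ (m : ℕ) (Y : ℝ), 0 ≤ Y → R ≤ Y → z ^ m * (Y + 1 / 4) < x →
      Y < x ∧ 1 < x / (z ^ m * (Y + 1 / 4)) ∧ R / (z ^ m * (Y + 1 / 4)) ≤ 1 := by
    intro m Y hY hRY hxY
    have hzm : 1 ≤ z ^ m := one_le_pow₀ hz1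
    have hd0 : 0 < z ^ m * (Y + 1 / 4) := mul_pos (by linarith) (by linarith)
    refine ⟨by nlinarith, ?_, ?_⟩
    · rw [one_lt_div hd0]
      exact hxY
    · rw [div_le_one hd0]
      nlinarith
  -- the step for residues other than 1, 5 gives the step for all residues
  have ext : ∀ (m T : ℕ), (∀ (A Q : ℕ) (Y : ℝ), Q % 2 = 1 → Q % 3 ≠ 0 → 0 ≤ Y →
      A % 6 ≠ 1 → A % 6 ≠ 5 → (∀ s, s < T → ((A + 6 * Q * s : ℕ) : ℝ) ≤ Y) →
      (NU A Q x R T : ℝ) ≤ HG u σ b K z m (A % 6) x R (Y + 1 / 4) T) →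
      ∀ (A Q : ℕ) (Y : ℝ), Q % 2 = 1 → Q % 3 ≠ 0 → 0 ≤ Y →
      (∀ s, s < T → ((A + 6 * Q * s : ℕ) : ℝ) ≤ Y) →
      (NU A Q x R T : ℝ) ≤ HG u σ b K z m (A % 6) x R (Y + 1 / 4) T := by
    intro m T low A Q Y hQ2 hQ3 hY hel
    by_cases hbase : Y < R ∨ x ≤ z ^ m * (Y + 1 / 4) ∨ T < T0
    · exact baseG hW hK0 hKT hR hz1 m T A Q Y hY hel hbase
    · push Not at hbase
      obtain ⟨hY1, hY2, _⟩ := hbase
      obtain ⟨n1, n2, n3⟩ := nb m Y hY hY1 hY2
      by_cases h15 : A % 6 = 1 ∨ A % 6 = 5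
      · have hn := NU_five A Q x R T h15 (fun s hs => (hel s hs).trans_lt n1)
        have hnr : (NU A Q x R T : ℝ) ≤ (NU (5 * A + 1) (5 * Q) x R T : ℝ) := by
          exact_mod_cast hn
        have i1 := low (5 * A + 1) (5 * Q) (5 * Y + 1) (by omega) (by omega) (by linarith)
          (by omega) (by omega) (by
            intro s hs
            have h := hel s hs
            push_cast at h ⊢
            nlinarith)
        refine hnr.trans (i1.trans ?_)
        have hT0 : (0 : ℝ) ≤ T := Nat.cast_nonneg T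
        have conv : ∀ r' r'' : ℕ, F r'' (x / (z ^ m * (Y + 1 / 4))) (R / (z ^ m * (Y + 1 / 4))) =
            F r' (x / (z ^ m * (Y + 1 / 4)) / 5) (R / (z ^ m * (Y + 1 / 4)) / 5) →
            (5 : ℝ) ^ σ * u r' ≤ u r'' →
            HG u σ b K z m r' x R (5 * Y + 1 + 1 / 4) T ≤ HG u σ b K z m r'' x R (Y + 1 / 4) T := by
          intro r' r'' g1 g2
          unfold HG
          have e0 : 5 * Y + 1 + 1 / 4 = 5 * (Y + 1 / 4) := by ring
          have hy0 : Y + 1 / 4 ≠ 0 := by positivity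
          have e1 : ∀ c : ℝ, c / (z ^ m * (5 * (Y + 1 / 4))) =
              c / (z ^ m * (Y + 1 / 4)) / 5 := by
            intro c
            field_simp
          rw [e0, e1, e1, g1]
          have h3 : 0 ≤ K * z ^ m * (T : ℝ) ^ b * ((Y + 1 / 4) / R) ^ σ := by
            positivity
          have h4 := mul_le_mul_of_nonneg_left g2 h3
          have e2 : (5 * (Y + 1 / 4) / R) ^ σ = (5 : ℝ) ^ σ * ((Y + 1 / 4) / R) ^ σ := by
            rw [mul_div_assoc, Real.mul_rpow (by norm_num) (by positivity)]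
          rw [e2]
          linarith
        rcases h15 with h | h
        · have e : (5 * A + 1) % 6 = 0 := by omega
          rw [e, h]
          refine conv 0 1 ?_ hW.c1
          rw [F_step n2 n3]
          unfold Op
          rw [if_neg (by norm_num), if_pos rfl]
        · have e : (5 * A + 1) % 6 = 2 := by omega
          rw [e, h]
          refine conv 2 5 ?_ hW.c5
          rw [F_step n2 n3]
          unfold Op
          rw [if_neg (by norm_num), if_neg (by norm_num), if_neg (by norm_num),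
            if_neg (by norm_num), if_neg (by norm_num)]
      · push Not at h15
        exact low A Q Y hQ2 hQ3 hY h15.1 h15.2 hel
  intro m
  induction m with
  | zero =>
    intro T hT A Q Y hQ2 hQ3 hY hel
    exact baseG hW hK0 hKT hR hz1 0 T A Q Y hY hel (Or.inr (Or.inr (by simp at hT; omega)))
  | succ m ih =>
    intro T hT
    refine ext (m + 1) T ?_
    intro A Q Y hQ2 hQ3 hY hA1 hA5 hel
    by_cases hbase : Y < R ∨ x ≤ z ^ (m + 1) * (Y + 1 / 4) ∨ T < T0
    · exact baseG hW hK0 hKT hR hz1 (m + 1) T A Q Y hY hel hbase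
    · push Not at hbase
      obtain ⟨hY1, hY2, hTbig⟩ := hbase
      obtain ⟨n1, n2, n3⟩ := nb (m + 1) Y hY hY1 hY2
      have helx : ∀ s, s < T → ((A + 6 * Q * s : ℕ) : ℝ) < x :=
        fun s hs => (hel s hs).trans_lt n1
      have hcase : A % 6 = 0 ∨ A % 6 = 2 ∨ A % 6 = 3 ∨ A % 6 = 4 := by omega
      have hyR : R ≤ Y + 1 / 4 := by linarith
      have hpow : 2 ^ (m + 1) = 2 * 2 ^ m := by ring
      set LL : ℝ := x / (z ^ (m + 1) * (Y + 1 / 4)) with hLL
      set RR : ℝ := R / (z ^ (m + 1) * (Y + 1 / 4)) with hRR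
      have ev : A % 2 = 0 → ∀ i j : ℕ, ((A / 2) % 6 = i ∧ (A / 2 + 3 * Q) % 6 = j ∨
          (A / 2) % 6 = j ∧ (A / 2 + 3 * Q) % 6 = i) →
          F (A % 6) LL RR = (F i (2 * LL) (2 * RR) + F j (2 * LL) (2 * RR)) / 2 →
          (2 : ℝ) ^ (-b) * (2 : ℝ) ^ (-σ) * (u i + u j) * (1 + δ) + δ ≤
            u (A % 6) →
          (NU A Q x R T : ℝ) ≤ HG u σ b K z (m + 1) (A % 6) x R (Y + 1 / 4) T := by
        intro hA2 i j hij hv hu
        have hn := NU_even A Q x R T hA2 helx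
        have hnr : (NU A Q x R T : ℝ) ≤ (NU (A / 2) Q x R ((T + 1) / 2) : ℝ) +
            (NU (A / 2 + 3 * Q) Q x R (T / 2) : ℝ) := by
          exact_mod_cast hn
        have hA : A = 2 * (A / 2) := by omega
        have i1 := ih ((T + 1) / 2) (by omega) (A / 2) Q (Y / 2) hQ2 hQ3 (by linarith) (by
          intro s hs
          have h := hel (2 * s) (by omega)
          have e : A + 6 * Q * (2 * s) = 2 * (A / 2 + 6 * Q * s) := by
            calc A + 6 * Q * (2 * s) = 2 * (A / 2) + 6 * Q * (2 * s) := by rw [← hA]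
              _ = _ := by ring
          rw [e] at h
          push_cast at h ⊢
          linarith)
        have i2 := ih (T / 2) (by omega) (A / 2 + 3 * Q) Q (Y / 2) hQ2 hQ3 (by linarith) (by
          intro s hs
          have h := hel (2 * s + 1) (by omega)
          have e : A + 6 * Q * (2 * s + 1) = 2 * (A / 2 + 3 * Q + 6 * Q * s) := by
            calc A + 6 * Q * (2 * s + 1) = 2 * (A / 2) + 6 * Q * (2 * s + 1) := by rw [← hA]
              _ = _ := by ring
          rw [e] at h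
          push_cast at h ⊢
          linarith)
        have hst := stepG (x := x) hW hTδ hK2 (le_trans (by norm_num) hT0) hR hz1 (k := 2) (T := T) (Or.inl rfl) hTbig hyR m (A % 6)
          (FS := F i (2 * LL) (2 * RR) + F j (2 * LL) (2 * RR)) (US := u i + u j)
          (by push_cast; exact hv.symm) (add_nonneg (hu0 i) (hu0 j))
          (by push_cast; exact hu)
        have cc : ∀ T' : ℕ, T' * 2 ≤ T + 1 → ∀ r, HG u σ b K z m r x R (Y / 2 + 1 / 4) (T' : ℝ) ≤
            (T + ((2 : ℕ) - 1)) / (2 : ℕ) * F r (2 * LL) (2 * RR) +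
            K * u r * z ^ m * ((T + ((2 : ℕ) - 1)) / (2 : ℕ) : ℝ) ^ b *
              ((Y + 1 / 4) / (2 : ℕ) * z / R) ^ σ := by
          intro T' hT' r
          have h := childG hW hK0 hx0 hR hz (k := 2) (T := T) (T' := T') (Or.inl rfl) (by
            have h2 : ((T' * 2 : ℕ) : ℝ) ≤ ((T + 1 : ℕ) : ℝ) := by exact_mod_cast hT'
            push_cast at h2 ⊢
            linarith) hY1 m r
          push_cast at h ⊢
          exact h
        have c1 := cc ((T + 1) / 2) (by omega)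
        have c2 := cc (T / 2) (by omega)
        have key : ∀ a₁ a₂ : ℕ, (A / 2) % 6 = a₁ → (A / 2 + 3 * Q) % 6 = a₂ →
            F a₁ (2 * LL) (2 * RR) + F a₂ (2 * LL) (2 * RR) =
              F i (2 * LL) (2 * RR) + F j (2 * LL) (2 * RR) → u a₁ + u a₂ = u i + u j →
            (NU A Q x R T : ℝ) ≤ HG u σ b K z (m + 1) (A % 6) x R (Y + 1 / 4) T := by
          intro a₁ a₂ e1 e2 e3 e4
          rw [e1] at i1
          rw [e2] at i2
          have k1 := c1 a₁
          have k2 := c2 a₂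
          refine le_trans ?_ hst
          rw [← e3, ← e4]
          linarith
        rcases hij with ⟨e1, e2⟩ | ⟨e1, e2⟩
        · exact key i j e1 e2 rfl rfl
        · exact key j i e1 e2 (add_comm _ _) (add_comm _ _)
      rcases hcase with h | h | h | h
      · refine ev (by omega) 0 3 (by omega) ?_ ?_
        · rw [h, F_step n2 n3]
          unfold Op
          rw [if_pos rfl]
        · rw [h]; exact hW.c0
      · refine ev (by omega) 1 4 (by omega) ?_ ?_
        · rw [h, F_step n2 n3]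
          unfold Op
          rw [if_neg (by norm_num), if_neg (by norm_num), if_pos rfl]
        · rw [h]; exact hW.c2
      · have hn := NU_three A Q x R T h helx
        have hnr : (NU A Q x R T : ℝ) ≤ (NU (A / 3) Q x R ((T + 2) / 3) : ℝ) +
            (NU (A / 3 + 2 * Q) Q x R ((T + 1) / 3) : ℝ) +
            (NU (A / 3 + 4 * Q) Q x R (T / 3) : ℝ) := by
          exact_mod_cast hn
        have hA : A = 3 * (A / 3) := by omega
        have h2m : 1 ≤ 2 ^ m := Nat.one_le_two_pow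
        have i1 := ih ((T + 2) / 3) (by omega) (A / 3) Q (Y / 3) hQ2 hQ3 (by linarith) (by
          intro s hs
          have h := hel (3 * s) (by omega)
          have e : A + 6 * Q * (3 * s) = 3 * (A / 3 + 6 * Q * s) := by
            calc A + 6 * Q * (3 * s) = 3 * (A / 3) + 6 * Q * (3 * s) := by rw [← hA]
              _ = _ := by ring
          rw [e] at h
          push_cast at h ⊢
          linarith)
        have i2 := ih ((T + 1) / 3) (by omega) (A / 3 + 2 * Q) Q (Y / 3) hQ2 hQ3 (by linarith) (by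
          intro s hs
          have h := hel (3 * s + 1) (by omega)
          have e : A + 6 * Q * (3 * s + 1) = 3 * (A / 3 + 2 * Q + 6 * Q * s) := by
            calc A + 6 * Q * (3 * s + 1) = 3 * (A / 3) + 6 * Q * (3 * s + 1) := by rw [← hA]
              _ = _ := by ring
          rw [e] at h
          push_cast at h ⊢
          linarith)
        have i3 := ih (T / 3) (by omega) (A / 3 + 4 * Q) Q (Y / 3) hQ2 hQ3 (by linarith) (by
          intro s hs
          have h := hel (3 * s + 2) (by omega)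
          have e : A + 6 * Q * (3 * s + 2) = 3 * (A / 3 + 4 * Q + 6 * Q * s) := by
            calc A + 6 * Q * (3 * s + 2) = 3 * (A / 3) + 6 * Q * (3 * s + 2) := by rw [← hA]
              _ = _ := by ring
          rw [e] at h
          push_cast at h ⊢
          linarith)
        have hFs : F (A % 6) LL RR = (F 1 (3 * LL) (3 * RR) + F 3 (3 * LL) (3 * RR) +
            F 5 (3 * LL) (3 * RR)) / 3 := by
          rw [h, F_step n2 n3]
          unfold Op
          rw [if_neg (by norm_num), if_neg (by norm_num), if_neg (by norm_num), if_pos rfl]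
        have hst := stepG (x := x) hW hTδ hK2 (le_trans (by norm_num) hT0) hR hz1 (k := 3) (T := T) (Or.inr rfl) hTbig hyR m (A % 6)
          (FS := F 1 (3 * LL) (3 * RR) + F 3 (3 * LL) (3 * RR) + F 5 (3 * LL) (3 * RR))
          (US := u 1 + u 3 + u 5)
          (by push_cast; exact hFs.symm)
          (add_nonneg (add_nonneg (hu0 1) (hu0 3)) (hu0 5))
          (by push_cast; rw [h]; exact hW.c3)
        have cc : ∀ T' : ℕ, T' * 3 ≤ T + 2 → ∀ r, HG u σ b K z m r x R (Y / 3 + 1 / 4) (T' : ℝ) ≤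
            (T + ((3 : ℕ) - 1)) / (3 : ℕ) * F r (3 * LL) (3 * RR) +
            K * u r * z ^ m * ((T + ((3 : ℕ) - 1)) / (3 : ℕ) : ℝ) ^ b *
              ((Y + 1 / 4) / (3 : ℕ) * z / R) ^ σ := by
          intro T' hT' r
          have h := childG hW hK0 hx0 hR hz (k := 3) (T := T) (T' := T') (Or.inr rfl) (by
            have h2 : ((T' * 3 : ℕ) : ℝ) ≤ ((T + 2 : ℕ) : ℝ) := by exact_mod_cast hT'
            push_cast at h2 ⊢
            linarith) hY1 m r
          push_cast at h ⊢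
          exact h
        have c1 := cc ((T + 2) / 3) (by omega)
        have c2 := cc ((T + 1) / 3) (by omega)
        have c3 := cc (T / 3) (by omega)
        have key : ∀ a₁ a₂ a₃ : ℕ, (A / 3) % 6 = a₁ → (A / 3 + 2 * Q) % 6 = a₂ →
            (A / 3 + 4 * Q) % 6 = a₃ →
            F a₁ (3 * LL) (3 * RR) + F a₂ (3 * LL) (3 * RR) + F a₃ (3 * LL) (3 * RR) =
              F 1 (3 * LL) (3 * RR) + F 3 (3 * LL) (3 * RR) + F 5 (3 * LL) (3 * RR) →
            u a₁ + u a₂ + u a₃ = u 1 + u 3 + u 5 →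
            (NU A Q x R T : ℝ) ≤ HG u σ b K z (m + 1) (A % 6) x R (Y + 1 / 4) T := by
          intro a₁ a₂ a₃ e1 e2 e3 e4 e5
          rw [e1] at i1
          rw [e2] at i2
          rw [e3] at i3
          have k1 := c1 a₁
          have k2 := c2 a₂
          have k3 := c3 a₃
          refine le_trans ?_ hst
          rw [← e4, ← e5]
          linarith
        have hc := three_cases A Q h hQ2 hQ3
        rcases hc with ⟨e1, e2, e3⟩ | ⟨e1, e2, e3⟩ | ⟨e1, e2, e3⟩ | ⟨e1, e2, e3⟩ |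
          ⟨e1, e2, e3⟩ | ⟨e1, e2, e3⟩
        · exact key 1 3 5 e1 e2 e3 rfl rfl
        · exact key 1 5 3 e1 e2 e3 (by ring) (by ring)
        · exact key 3 1 5 e1 e2 e3 (by ring) (by ring)
        · exact key 3 5 1 e1 e2 e3 (by ring) (by ring)
        · exact key 5 1 3 e1 e2 e3 (by ring) (by ring)
        · exact key 5 3 1 e1 e2 e3 (by ring) (by ring)
      · refine ev (by omega) 2 5 (by omega) ?_ ?_
        · rw [h, F_step n2 n3]
          unfold Op
          rw [if_neg (by norm_num), if_neg (by norm_num), if_neg (by norm_num),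
            if_neg (by norm_num), if_pos rfl]
        · rw [h]; exact hW.c4

theorem upG {s b δ U : ℝ} {u : ℕ → ℝ} (hW : WP s b δ U u) :
    ∃ B : ℝ, 0 ≤ B ∧ ∀ x R : ℝ, 1 / 2 ≤ x → 1 / 2 ≤ R → ∀ (m T : ℕ), T ≤ 2 ^ m →
    ∀ (A Q : ℕ) (Y : ℝ), Q % 2 = 1 → Q % 3 ≠ 0 → 0 ≤ Y →
    (∀ s, s < T → ((A + 6 * Q * s : ℕ) : ℝ) ≤ Y) →
    (NU A Q x R T : ℝ) ≤ (T : ℝ) * F (A % 6) (x / ((1 + 1 / (2 * R)) ^ m * (Y + 1 / 4)))
        (R / ((1 + 1 / (2 * R)) ^ m * (Y + 1 / 4)))
      + B * (1 + 1 / (2 * R)) ^ m * (T : ℝ) ^ b * ((Y + 1 / 4) / R) ^ s := by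
  have hδ0 := hW.δ0
  obtain ⟨T0, hT0⟩ := exists_nat_ge (2 / δ + 2)
  have hT01 : 2 ≤ T0 := by
    have h1 : (2 : ℝ) ≤ T0 := by
      have : 0 < 2 / δ := by positivity
      linarith
    exact_mod_cast h1
  have hTδ : 2 ≤ (T0 : ℝ) * δ := by
    have h1 : 2 / δ ≤ T0 := by linarith
    rwa [div_le_iff₀ hδ0] at h1
  set K : ℝ := (T0 + 2) / δ with hK
  have hKδ : K * δ = T0 + 2 := by
    rw [hK]
    field_simp
  have hK0 : 0 ≤ K := by
    rw [hK]
    positivity
  have hU0 : 0 ≤ U := hδ0.le.trans ((hW.low 0).trans (hW.up 0))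
  refine ⟨K * U, mul_nonneg hK0 hU0, ?_⟩
  intro x R hx hR m T hT A Q Y hQ2 hQ3 hY hel
  have hR0 : 0 < R := by linarith
  have hT0n : (0 : ℝ) ≤ T0 := Nat.cast_nonneg _
  refine (mainG hW hT01 hTδ (by rw [hKδ]; linarith) (by rw [hKδ]; linarith) hx hR0 rfl m T hT A Q
    Y hQ2 hQ3 hY hel).trans ?_
  unfold HG
  have h1 := hW.up (A % 6)
  have hTn : (0 : ℝ) ≤ T := Nat.cast_nonneg T
  have h2 : 0 ≤ (1 + 1 / (2 * R)) ^ m * (T : ℝ) ^ b * ((Y + 1 / 4) / R) ^ s := by
    positivity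
  have h3 := mul_le_mul_of_nonneg_right (mul_le_mul_of_nonneg_left h1 hK0) h2
  linarith

end Pool.Agent.H12.EK
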