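import Pool.Agent.H12.EK.Defs

/-!
Existence of the weights for every `β > 7 log 5 / (14 log 2 + 6 log 3) = 0.6913...`.
-/

set_option autoImplicit false

namespace Pool.Agent.H12.EK

private lemma exp_quad {x : ℝ} (h : |x| ≤ 1) : Real.exp x ≤ 1 + x + x ^ 2 := by
  have h1 := Real.abs_exp_sub_one_sub_id_le h
  have h2 := le_abs_self (Real.exp x - 1 - x)
  linarith

private lemma abs_mul_le_one {σ a M : ℝ} (hM : 0 < M) (ha : |a| ≤ M) (hσ : 0 < σ) (h : σ ≤ 1 / M) :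
    |σ * a| ≤ 1 := by
  rw [abs_mul, abs_of_pos hσ]
  have h1 : σ * M ≤ 1 := by
    rw [le_div_iff₀ hM] at h
    exact h
  have h2 : σ * |a| ≤ σ * M := mul_le_mul_of_nonneg_left ha hσ.le
  linarith

lemma exp_avg3 {a b c : ℝ} (h : a + b + c < 0) :
    ∃ σ0 : ℝ, 0 < σ0 ∧ ∀ σ : ℝ, 0 < σ → σ ≤ σ0 →
      (Real.exp (σ * a) + Real.exp (σ * b) + Real.exp (σ * c)) / 3 < 1 := by
  have hM : 0 < |a| + |b| + |c| + 1 := by positivity
  have hQ : 0 < a ^ 2 + b ^ 2 + c ^ 2 + 1 := by positivity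
  refine ⟨min (1 / (|a| + |b| + |c| + 1)) (-(a + b + c) / (a ^ 2 + b ^ 2 + c ^ 2 + 1)),
    lt_min (by positivity) (div_pos (by linarith) hQ), fun σ hσ hle => ?_⟩
  have h1 : σ ≤ 1 / (|a| + |b| + |c| + 1) := hle.trans (min_le_left _ _)
  have h2 : σ ≤ -(a + b + c) / (a ^ 2 + b ^ 2 + c ^ 2 + 1) := hle.trans (min_le_right _ _)
  rw [le_div_iff₀ hQ] at h2
  have ha := abs_nonneg a
  have hb := abs_nonneg b
  have hc := abs_nonneg c
  have e1 := exp_quad (abs_mul_le_one hM (show |a| ≤ _ by linarith) hσ h1)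
  have e2 := exp_quad (abs_mul_le_one hM (show |b| ≤ _ by linarith) hσ h1)
  have e3 := exp_quad (abs_mul_le_one hM (show |c| ≤ _ by linarith) hσ h1)
  have h3 : σ * (σ * (a ^ 2 + b ^ 2 + c ^ 2 + 1)) ≤ σ * -(a + b + c) :=
    mul_le_mul_of_nonneg_left h2 hσ.le
  have h4 : 0 < σ * σ := by positivity
  rw [div_lt_one (by norm_num)]
  nlinarith [h3, h4, e1, e2, e3]

/-- `(1 / k) ∑ exp (σ a_i) < 1` for small `σ > 0` if `∑ a_i < 0` -/
lemma exp_avg2 {a b : ℝ} (h : a + b < 0) :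
    ∃ σ0 : ℝ, 0 < σ0 ∧ ∀ σ : ℝ, 0 < σ → σ ≤ σ0 → (Real.exp (σ * a) + Real.exp (σ * b)) / 2 < 1 := by
  have hM : 0 < |a| + |b| + 1 := by positivity
  have hQ : 0 < a ^ 2 + b ^ 2 + 1 := by positivity
  refine ⟨min (1 / (|a| + |b| + 1)) (-(a + b) / (a ^ 2 + b ^ 2 + 1)),
    lt_min (by positivity) (div_pos (by linarith) hQ), fun σ hσ hle => ?_⟩
  have h1 : σ ≤ 1 / (|a| + |b| + 1) := hle.trans (min_le_left _ _)
  have h2 : σ ≤ -(a + b) / (a ^ 2 + b ^ 2 + 1) := hle.trans (min_le_right _ _)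
  rw [le_div_iff₀ hQ] at h2
  have ha := abs_nonneg a
  have hb := abs_nonneg b
  have e1 := exp_quad (abs_mul_le_one hM (show |a| ≤ _ by linarith) hσ h1)
  have e2 := exp_quad (abs_mul_le_one hM (show |b| ≤ _ by linarith) hσ h1)
  have h3 : σ * (σ * (a ^ 2 + b ^ 2 + 1)) ≤ σ * -(a + b) :=
    mul_le_mul_of_nonneg_left h2 hσ.le
  have h4 : 0 < σ * σ := by positivity
  rw [div_lt_one (by norm_num)]
  nlinarith [h3, h4, e1, e2]

private lemma tilt (k : ℝ) (hk : 0 < k) (s β : ℝ) :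
    k ^ (-(1 - s * (1 - β))) * k ^ (-s) = k⁻¹ * Real.exp (-(s * β * Real.log k)) := by
  rw [← Real.rpow_add hk, Real.rpow_def_of_pos hk]
  have h1 : k⁻¹ = Real.exp (-(Real.log k)) := by rw [Real.exp_neg, Real.exp_log hk]
  rw [h1, ← Real.exp_add]
  congr 1
  ring

private lemma exp_split (s x z β l : ℝ) :
    Real.exp (-(s * β * l)) * Real.exp (s * x) = Real.exp (s * z) * Real.exp (s * (x - z - β * l)) := by
  rw [← Real.exp_add, ← Real.exp_add]
  congr 1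
  ring

private lemma cond2 {s β x y z : ℝ}
    (h : (Real.exp (s * (x - z - β * Real.log 2)) + Real.exp (s * (y - z - β * Real.log 2))) / 2 < 1) :
    (2 : ℝ) ^ (-(1 - s * (1 - β))) * (2 : ℝ) ^ (-s) * (Real.exp (s * x) + Real.exp (s * y)) <
      Real.exp (s * z) := by
  rw [tilt 2 (by norm_num)]
  calc (2 : ℝ)⁻¹ * Real.exp (-(s * β * Real.log 2)) * (Real.exp (s * x) + Real.exp (s * y))
      = (2 : ℝ)⁻¹ * (Real.exp (-(s * β * Real.log 2)) * Real.exp (s * x) +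
          Real.exp (-(s * β * Real.log 2)) * Real.exp (s * y)) := by ring
    _ = Real.exp (s * z) * ((Real.exp (s * (x - z - β * Real.log 2)) +
          Real.exp (s * (y - z - β * Real.log 2))) / 2) := by
        rw [exp_split s x z, exp_split s y z]
        ring
    _ < Real.exp (s * z) * 1 := mul_lt_mul_of_pos_left h (Real.exp_pos _)
    _ = Real.exp (s * z) := mul_one _

private lemma cond3 {s β x y t z : ℝ}
    (h : (Real.exp (s * (x - z - β * Real.log 3)) + Real.exp (s * (y - z - β * Real.log 3)) +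
      Real.exp (s * (t - z - β * Real.log 3))) / 3 < 1) :
    (3 : ℝ) ^ (-(1 - s * (1 - β))) * (3 : ℝ) ^ (-s) *
      (Real.exp (s * x) + Real.exp (s * y) + Real.exp (s * t)) < Real.exp (s * z) := by
  rw [tilt 3 (by norm_num)]
  calc (3 : ℝ)⁻¹ * Real.exp (-(s * β * Real.log 3)) *
        (Real.exp (s * x) + Real.exp (s * y) + Real.exp (s * t))
      = (3 : ℝ)⁻¹ * (Real.exp (-(s * β * Real.log 3)) * Real.exp (s * x) +
          Real.exp (-(s * β * Real.log 3)) * Real.exp (s * y) +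
          Real.exp (-(s * β * Real.log 3)) * Real.exp (s * t)) := by ring
    _ = Real.exp (s * z) * ((Real.exp (s * (x - z - β * Real.log 3)) +
          Real.exp (s * (y - z - β * Real.log 3)) + Real.exp (s * (t - z - β * Real.log 3))) / 3) := by
        rw [exp_split s x z, exp_split s y z, exp_split s t z]
        ring
    _ < Real.exp (s * z) * 1 := mul_lt_mul_of_pos_left h (Real.exp_pos _)
    _ = Real.exp (s * z) := mul_one _

private lemma slack {X u : ℝ} (hX : 0 ≤ X) (h : X < u) :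
    ∃ δ0 : ℝ, 0 < δ0 ∧ ∀ δ : ℝ, δ ≤ δ0 → X * (1 + δ) + δ ≤ u := by
  have h1 : 0 < X + 1 := by linarith
  refine ⟨(u - X) / (X + 1), div_pos (by linarith) h1, fun δ hδ => ?_⟩
  rw [le_div_iff₀ h1] at hδ
  linarith

/-- Proof. Let `l2, l3, l5` be the logarithms, `β' < β` still larger than
`7 l5 / (14 l2 + 6 l3)`, `c2 = 2 β' l2`, `c3 = 3 β' l3`, so `7 l5 < 7 c2 + 2 c3`. With
`g = 2 c2 + c3 - 2 l5 - (3/2) (l5 - c2) > 0` take `h0 = 0`, `h3 = c2 - g/8`,
`h2 = (3/2) (l5 - c2) + g/4`, `h4` = the middle of `(h2 + (l5 - c2)/2, 2 h2 + c2 - l5)`,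
`h1 = h0 + l5`, `h5 = h2 + l5`, `u r = exp (s h_r)` (`r < 6`, `u r = 1` for `r ≥ 6`),
`b = 1 - s (1 - β')`, so `k^(-b) k^(-s) = (1/k) exp (-s β' log k)` (`-b - s = -1 - s β'`).
Divided by `u r` the conditions are `(1/k) ∑ exp (s (h_child - h_r - β' log k)) < 1`, and the sums
of the exponents are negative:
(0) `h3 - h0 - 2 β' l2 < 0`, (2) `h1 + h4 - 2 h2 - c2 < 0`, (4) `h2 + h5 - 2 h4 - c2 < 0`,
(3) `h1 + h3 + h5 - 3 h3 - c3 < 0`. Take `s` small (`exp_avg2`, `exp_avg3`, also `s ≤ 1`,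
`s (1 - β') < 1`), then `δ` small (finitely many strict inequalities).
`b + s (1 - β) = 1 - s (β - β') < 1`. -/
theorem exists_weights {β : ℝ}
    (hβ : 7 * Real.log 5 / (14 * Real.log 2 + 6 * Real.log 3) < β) (hβ1 : β < 1) :
    ∃ (s b δ U : ℝ) (u : ℕ → ℝ), WP s b δ U u ∧ b + s * (1 - β) < 1 := by
  have l2 : 0 < Real.log 2 := Real.log_pos (by norm_num)
  have l3 : 0 < Real.log 3 := Real.log_pos (by norm_num)
  have l5 : 0 < Real.log 5 := Real.log_pos (by norm_num)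
  have hD : 0 < 14 * Real.log 2 + 6 * Real.log 3 := by positivity
  obtain ⟨β', hb1, hb2⟩ := exists_between hβ
  have hb0 : 0 < β' := lt_trans (by positivity) hb1
  rw [div_lt_iff₀ hD] at hb1
  obtain ⟨c2, hc2⟩ : ∃ c2 : ℝ, c2 = 2 * β' * Real.log 2 := ⟨_, rfl⟩
  obtain ⟨c3, hc3⟩ : ∃ c3 : ℝ, c3 = 3 * β' * Real.log 3 := ⟨_, rfl⟩
  have h7 : 7 * Real.log 5 < 7 * c2 + 2 * c3 := by
    rw [hc2, hc3]
    linarith
  obtain ⟨g, hg⟩ : ∃ g : ℝ, g = 2 * c2 + c3 - 2 * Real.log 5 - (3 / 2) * (Real.log 5 - c2) := ⟨_, rfl⟩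
  have hg0 : 0 < g := by
    rw [hg]
    linarith
  obtain ⟨h2, hh2⟩ : ∃ h2 : ℝ, h2 = (3 / 2) * (Real.log 5 - c2) + g / 4 := ⟨_, rfl⟩
  obtain ⟨h3, hh3⟩ : ∃ h3 : ℝ, h3 = c2 - g / 8 := ⟨_, rfl⟩
  obtain ⟨h4, hh4⟩ : ∃ h4 : ℝ, h4 = ((h2 + (Real.log 5 - c2) / 2) + (2 * h2 + c2 - Real.log 5)) / 2 :=
    ⟨_, rfl⟩
  -- the four sums
  obtain ⟨σ0, hσ0, H0⟩ := exp_avg2 (a := 0 - 0 - β' * Real.log 2) (b := h3 - 0 - β' * Real.log 2)
    (by linarith)
  obtain ⟨σ2, hσ2, H2⟩ := exp_avg2 (a := Real.log 5 - h2 - β' * Real.log 2)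
    (b := h4 - h2 - β' * Real.log 2) (by linarith)
  obtain ⟨σ4, hσ4, H4⟩ := exp_avg2 (a := h2 - h4 - β' * Real.log 2)
    (b := (h2 + Real.log 5) - h4 - β' * Real.log 2) (by linarith)
  obtain ⟨σ3, hσ3, H3⟩ := exp_avg3 (a := Real.log 5 - h3 - β' * Real.log 3)
    (b := h3 - h3 - β' * Real.log 3) (c := (h2 + Real.log 5) - h3 - β' * Real.log 3) (by linarith)
  obtain ⟨s, hs0, hs1, hsa, hsb, hsc, hsd⟩ : ∃ s : ℝ, 0 < s ∧ s ≤ 1 ∧ s ≤ σ0 ∧ s ≤ σ2 ∧ s ≤ σ4 ∧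
      s ≤ σ3 := by
    refine ⟨min 1 (min σ0 (min σ2 (min σ4 σ3))), ?_, min_le_left _ _, ?_, ?_, ?_, ?_⟩
    · exact lt_min one_pos (lt_min hσ0 (lt_min hσ2 (lt_min hσ4 hσ3)))
    · exact (min_le_right _ _).trans (min_le_left _ _)
    · exact (min_le_right _ _).trans ((min_le_right _ _).trans (min_le_left _ _))
    · exact (min_le_right _ _).trans ((min_le_right _ _).trans ((min_le_right _ _).trans
        (min_le_left _ _)))
    · exact (min_le_right _ _).trans ((min_le_right _ _).trans ((min_le_right _ _).trans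
        (min_le_right _ _)))
  have I0 := cond2 (H0 s hs0 hsa)
  have I2 := cond2 (H2 s hs0 hsb)
  have I4 := cond2 (H4 s hs0 hsc)
  have I3 := cond3 (H3 s hs0 hsd)
  obtain ⟨δ0, hδ0, J0⟩ := slack (by positivity) I0
  obtain ⟨δ2, hδ2, J2⟩ := slack (by positivity) I2
  obtain ⟨δ4, hδ4, J4⟩ := slack (by positivity) I4
  obtain ⟨δ3, hδ3, J3⟩ := slack (by positivity) I3
  -- bounds for the exponents
  obtain ⟨h, h_0, h_1, h_2, h_3, h_4, h_5, h_6⟩ : ∃ h : ℕ → ℝ, h 0 = 0 ∧ h 1 = Real.log 5 ∧ h 2 = h2 ∧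
      h 3 = h3 ∧ h 4 = h4 ∧ h 5 = h2 + Real.log 5 ∧ ∀ r, h (r + 6) = 0 :=
    ⟨fun r => match r with
      | 0 => 0
      | 1 => Real.log 5
      | 2 => h2
      | 3 => h3
      | 4 => h4
      | 5 => h2 + Real.log 5
      | _ => 0, rfl, rfl, rfl, rfl, rfl, rfl, fun _ => rfl⟩
  obtain ⟨H, hH0, hH⟩ : ∃ H : ℝ, 0 ≤ H ∧ ∀ r, |h r| ≤ H := by
    have a1 := abs_nonneg (Real.log 5)
    have a2 := abs_nonneg h2
    have a3 := abs_nonneg h3
    have a4 := abs_nonneg h4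
    have a5 := abs_add_le h2 (Real.log 5)
    refine ⟨|Real.log 5| + |h2| + |h3| + |h4|, by positivity, fun r => ?_⟩
    rcases r with _ | _ | _ | _ | _ | _ | r
    · rw [h_0, abs_zero]; linarith
    · rw [h_1]; linarith
    · rw [h_2]; linarith
    · rw [h_3]; linarith
    · rw [h_4]; linarith
    · rw [h_5]; linarith
    · rw [h_6, abs_zero]; linarith
  have hsH : ∀ r, |s * h r| ≤ H := fun r => by
    rw [abs_mul, abs_of_pos hs0]
    have h1 : s * |h r| ≤ 1 * |h r| := mul_le_mul_of_nonneg_right hs1 (abs_nonneg _)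
    linarith [hH r]
  obtain ⟨δ, hδ, hd1, hda, hdb, hdc, hdd, hde⟩ : ∃ δ : ℝ, 0 < δ ∧ δ ≤ 1 ∧ δ ≤ δ0 ∧ δ ≤ δ2 ∧ δ ≤ δ4 ∧
      δ ≤ δ3 ∧ δ ≤ Real.exp (-H) := by
    refine ⟨min 1 (min δ0 (min δ2 (min δ4 (min δ3 (Real.exp (-H)))))), ?_, min_le_left _ _, ?_, ?_, ?_,
      ?_, ?_⟩
    · exact lt_min one_pos (lt_min hδ0 (lt_min hδ2 (lt_min hδ4 (lt_min hδ3 (Real.exp_pos _)))))
    · exact (min_le_right _ _).trans (min_le_left _ _)
    · exact (min_le_right _ _).trans ((min_le_right _ _).trans (min_le_left _ _))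
    · exact (min_le_right _ _).trans ((min_le_right _ _).trans ((min_le_right _ _).trans
        (min_le_left _ _)))
    · exact (min_le_right _ _).trans ((min_le_right _ _).trans ((min_le_right _ _).trans
        ((min_le_right _ _).trans (min_le_left _ _))))
    · exact (min_le_right _ _).trans ((min_le_right _ _).trans ((min_le_right _ _).trans
        ((min_le_right _ _).trans (min_le_right _ _))))
  have hsβ : 0 < s * (1 - β') := mul_pos hs0 (by linarith)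
  have hsβ1 : s * (1 - β') < 1 := by
    have h1 : s * (1 - β') ≤ 1 * (1 - β') := mul_le_mul_of_nonneg_right hs1 (by linarith)
    linarith
  have h5s : (5 : ℝ) ^ s = Real.exp (s * Real.log 5) := by
    rw [Real.rpow_def_of_pos (by norm_num), mul_comm]
  refine ⟨s, 1 - s * (1 - β'), δ, Real.exp H, fun r => Real.exp (s * h r), ?_, ?_⟩
  · refine ⟨hs0, hs1, by linarith, by linarith, hδ, hd1, fun r => ?_, fun r => ?_, ?_, ?_, ?_, ?_, ?_, ?_⟩
    · exact hde.trans (Real.exp_le_exp.2 (abs_le.1 (hsH r)).1)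
    · exact Real.exp_le_exp.2 (abs_le.1 (hsH r)).2
    · simp only [h_0, h_3]
      exact J0 δ hda
    · simp only [h_1, h_2, h_4]
      exact J2 δ hdb
    · simp only [h_2, h_4, h_5]
      exact J4 δ hdc
    · simp only [h_1, h_3, h_5]
      exact J3 δ hdd
    · simp only [h_0, h_1, h5s]
      rw [mul_zero, Real.exp_zero, mul_one]
    · simp only [h_2, h_5, h5s]
      rw [← Real.exp_add]
      exact le_of_eq (by congr 1; ring)
  · have h1 : 0 < s * (β - β') := mul_pos hs0 (by linarith)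
    linarith

end Pool.Agent.H12.EK
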